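import Pool.Agent.Helper741.QSym.Rel

set_option autoImplicit false
set_option linter.unusedSectionVars false
set_option linter.unusedVariables false

namespace Pool.Agent.Helper43K9.QS

open Pool.Agent.H741.QS

/-- a system of two-point coordinates: `τ j` is the sign of the coordinate `j`, `φ j` changes it,
`NK` are the edges in the other directions -/
structure Sys {V : Type} (Γ : SimpleGraph V) (T : Type) (τ : T → V → ℝ) (φ : T → V → V)
    (NK : V → V → Prop) : Prop where
  tau : ∀ j x, τ j x * τ j x = 1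
  inv : ∀ j x, φ j (φ j x) = x
  comm : ∀ i j x, φ i (φ j x) = φ j (φ i x)
  tau_self : ∀ j x, τ j (φ j x) = - τ j x
  tau_ne : ∀ i j x, i ≠ j → τ j (φ i x) = τ j x
  adj : ∀ x y, Γ.Adj x y ↔ NK x y ∨ ∃ j, y = φ j x
  nk_tau : ∀ x y j, NK x y → τ j x = τ j y
  nk_flip : ∀ x y j, NK x y → NK (φ j x) (φ j y)
  diag : ∀ j t v x y, Diag Γ t v x y → τ j x + τ j y = τ j t + τ j v
  diag2 : ∀ i j x, i ≠ j → Diag Γ (φ i x) (φ j x) x (φ i (φ j x))
  conn : Γ.Connected

/-- the vanishing of products which mix the two types of edges -/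
structure S1 {V B T : Type} [Ring B] (φ : T → V → V) (NK : V → V → Prop) (u : V → V → B) :
    Prop where
  a : ∀ a b w l, NK a b → u a w * u b (φ l w) = 0
  b : ∀ a w v i, NK w v → u a w * u (φ i a) v = 0

section

variable {V : Type} [Fintype V] {B : Type} [Ring B] [StarRing B] [Algebra ℝ B] [StarModule ℝ B]
variable {Γ : SimpleGraph V} {T : Type} {τ : T → V → ℝ} {φ : T → V → V} {NK : V → V → Prop}
variable {u : V → V → B}

namespace Sys

theorem tau_ne_zero (hs : Sys Γ T τ φ NK) (j : T) (x : V) : τ j x ≠ 0 := by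
  intro h
  have := hs.tau j x
  rw [h] at this
  norm_num at this

theorem adj_phi (hs : Sys Γ T τ φ NK) (j : T) (x : V) : Γ.Adj x (φ j x) :=
  (hs.adj x _).2 (Or.inr ⟨j, rfl⟩)

theorem phi_inj (hs : Sys Γ T τ φ NK) {i j : T} {x : V} (h : φ i x = φ j x) : i = j := by
  by_contra hne
  have h1 := hs.tau_self j x
  rw [← h, hs.tau_ne i j x hne] at h1
  have h2 := hs.tau_ne_zero j x
  apply h2
  linarith

theorem tau_or (hs : Sys Γ T τ φ NK) {j k : T} (hjk : j ≠ k) {w v : V} (hwv : Γ.Adj w v) :
    τ j w = τ j v ∨ τ k w = τ k v := by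
  rcases (hs.adj w v).1 hwv with hn | ⟨l, rfl⟩
  · exact Or.inl (hs.nk_tau _ _ _ hn)
  · by_cases hl : l = j
    · subst hl
      exact Or.inr (hs.tau_ne _ _ _ hjk).symm
    · exact Or.inl (hs.tau_ne _ _ _ hl).symm

end Sys

omit [StarRing B] [StarModule ℝ B] in
theorem smul_cancel {c : ℝ} (hc : c ≠ 0) {x : B} (h : c • x = 0) : x = 0 := by
  rw [← one_smul ℝ x, ← inv_mul_cancel₀ hc, mul_smul, h, smul_zero]

/-- the functions are constant along the other edges -/
theorem f_nk (h : QIso Γ Γ u) (hs : Sys Γ T τ φ NK) (h1 : S1 φ NK u) (j : T) {a b : V}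
    (hab : NK a b) : al u (τ j) a = al u (τ j) b := by
  have hadj : Γ.Adj a b := (hs.adj a b).2 (Or.inl hab)
  have : al u (τ j) a - al u (τ j) b = 0 := by
    apply h.eq_zero a b
    intro w v
    have e1 : u a w * (al u (τ j) a - al u (τ j) b) * u b v =
        (τ j w - τ j v) • (u a w * u b v) := by
      rw [mul_sub, sub_mul, mul_assoc (u a w) (al u (τ j) b), h.al_mul_u, h.u_mul_al,
        mul_smul_comm, smul_mul_assoc, sub_smul]
    rw [e1]
    by_cases hz : u a w * u b v = 0
    · rw [hz, smul_zero]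
    · have hwv : Γ.Adj w v := by
        by_contra hn
        exact hz (h.adj _ _ _ _ fun h' => hn (h'.1 hadj))
      rcases (hs.adj w v).1 hwv with hn | ⟨l, rfl⟩
      · rw [hs.nk_tau _ _ j hn, sub_self, zero_smul]
      · exact absurd (h1.a a b w l hab) hz
  exact sub_eq_zero.1 this

/-- mixed second differences vanish -/
theorem f_sq (h : QIso Γ Γ u) (hs : Sys Γ T τ φ NK) (j : T) {i l : T} (hil : i ≠ l) (a : V) :
    al u (τ j) a - al u (τ j) (φ i a) - al u (τ j) (φ l a) + al u (τ j) (φ i (φ l a)) = 0 := by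
  classical
  have hd := hs.diag2 i l a hil
  apply h.eq_zero (φ l a) (φ i a)
  intro t v
  have e1 : u (φ l a) t * (al u (τ j) a - al u (τ j) (φ i a) - al u (τ j) (φ l a) +
      al u (τ j) (φ i (φ l a))) * u (φ i a) v =
      u (φ l a) t * (al u (τ j) a + al u (τ j) (φ i (φ l a))) * u (φ i a) v
        - u (φ l a) t * (al u (τ j) (φ i a) * u (φ i a) v) -
          (u (φ l a) t * al u (τ j) (φ l a)) * u (φ i a) v := by noncomm_ring
  rw [e1, h.square_sum hd, h.al_mul_u, h.u_mul_al, mul_smul_comm, smul_mul_assoc, ← sub_smul,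
    ← sub_smul]
  by_cases hX : u (φ l a) t * u (φ i a) v = 0
  · rw [hX, smul_zero]
  obtain ⟨w, r, hw⟩ := h.diag_rel hd.symm hX
  have h4 := hs.diag j t v w r hw
  have h5 : (∑ x, if (Γ.Adj t x ∧ Γ.Adj v x) then τ j x else 0) = τ j w + τ j r := by
    have : ∀ x, (if (Γ.Adj t x ∧ Γ.Adj v x) then τ j x else 0) =
        if (x = w ∨ x = r) then τ j x else 0 := fun x => by
      simp only [hw.2.2.2 x]
    simp only [this]
    rw [← Finset.sum_filter]
    have h6 : (Finset.univ.filter fun x => x = w ∨ x = r) = {w, r} := by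
      ext x; simp
    rw [h6, Finset.sum_pair hw.2.2.1]
  have h7 : (∑ x, if (Γ.Adj t x ∧ Γ.Adj v x) then τ j x else 0) - τ j v - τ j t = 0 := by
    rw [h5, h4]; ring
  have h8 : ((∑ x, if (Γ.Adj t x ∧ Γ.Adj v x) then τ j x else 0) - τ j v - τ j t) •
      (u (φ l a) t * u (φ i a) v) = 0 := by rw [h7, zero_smul]
  convert h8 using 3

/-- the coefficients exist -/
theorem exists_b (h : QIso Γ Γ u) (hs : Sys Γ T τ φ NK) (h1 : S1 φ NK u) :
    ∃ b : T → T → B, (∀ i j, star (b i j) = b i j) ∧
      ∀ i j a, al u (τ j) a - al u (τ j) (φ i a) = (2 * τ i a) • b i j := by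
  obtain ⟨o⟩ := hs.conn.nonempty
  let f : T → T → V → B := fun i j a => (τ i a / 2) • (al u (τ j) a - al u (τ j) (φ i a))
  have hstep : ∀ i j x y, Γ.Adj x y → f i j x = f i j y := by
    intro i j x y hxy
    rcases (hs.adj x y).1 hxy with hn | ⟨l, rfl⟩
    · simp only [f]
      rw [f_nk h hs h1 j hn, f_nk h hs h1 j (hs.nk_flip _ _ i hn), hs.nk_tau _ _ i hn]
    · by_cases hl : l = i
      · subst hl
        simp only [f]
        rw [hs.tau_self, hs.inv, neg_div, neg_smul, ← smul_neg, neg_sub]
      · simp only [f]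
        rw [hs.tau_ne l i x hl]
        congr 1
        have e := f_sq h hs j (Ne.symm hl) x
        have e' : (al u (τ j) x - al u (τ j) (φ i x)) -
          (al u (τ j) (φ l x) - al u (τ j) (φ i (φ l x))) = 0 := by rw [← e]; abel
        exact sub_eq_zero.1 e'
  have hconst : ∀ i j x, f i j x = f i j o := by
    intro i j x
    obtain ⟨p⟩ := hs.conn.preconnected x o
    induction p with
    | nil => rfl
    | cons hadj _ ih => rw [hstep i j _ _ hadj]; exact ih
  refine ⟨fun i j => f i j o, ?_, ?_⟩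
  · intro i j
    simp only [f]
    rw [star_smul, star_sub, h.star_al, h.star_al]
    simp
  · intro i j a
    simp only
    rw [← hconst i j a]
    simp only [f]
    rw [smul_smul]
    have : 2 * τ i a * (τ i a / 2) = 1 := by linear_combination hs.tau i a
    rw [this, one_smul]

/-- all that is known about the coefficients -/
structure Coef (Γ : SimpleGraph V) (τ : T → V → ℝ) (φ : T → V → V) (NK : V → V → Prop)
    (u : V → V → B) (b : T → T → B) : Prop where
  h : QIso Γ Γ u
  hs : Sys Γ T τ φ NK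
  h1 : S1 φ NK u
  st : ∀ i j, star (b i j) = b i j
  hb : ∀ i j a, al u (τ j) a - al u (τ j) (φ i a) = (2 * τ i a) • b i j

namespace Coef

variable {b : T → T → B}

open Classical in
theorem key (hc : Coef Γ τ φ NK u b) (i j : T) (a v w : V) :
    u (φ i a) v * b i j * u a w =
      if v = φ j w then (τ i a * τ j w) • (u (φ i a) (φ j w) * u a w) else 0 := by
  have h := hc.h
  have hs := hc.hs
  have e1 : u (φ i a) v * (al u (τ j) a - al u (τ j) (φ i a)) * u a w =
      (τ j w - τ j v) • (u (φ i a) v * u a w) := by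
    rw [mul_sub, sub_mul, mul_assoc, h.al_mul_u, h.u_mul_al, mul_smul_comm, smul_mul_assoc,
      sub_smul]
  have hsq : τ i a * τ i a = 1 := hs.tau i a
  have e2 : u (φ i a) v * b i j * u a w =
      (τ i a / 2 * (τ j w - τ j v)) • (u (φ i a) v * u a w) := by
    rw [mul_smul, ← e1, hc.hb, mul_smul_comm, smul_mul_assoc, smul_smul]
    have : τ i a / 2 * (2 * τ i a) = 1 := by linear_combination hsq
    rw [this, one_smul]
  rw [e2]
  split_ifs with hv
  · subst hv
    rw [hs.tau_self]
    congr 1
    ring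
  · by_cases hz : u (φ i a) v * u a w = 0
    · rw [hz, smul_zero]
    · have hadj : Γ.Adj v w := by
        by_contra hn
        exact hz (h.adj _ _ _ _ fun h' => hn (h'.1 (hs.adj_phi i a).symm))
      rcases (hs.adj w v).1 hadj.symm with hn | ⟨l, rfl⟩
      · exact absurd (h.star_mul_eq_zero (hc.h1.b a w v i hn)) hz
      · have : l ≠ j := by rintro rfl; exact hv rfl
        rw [hs.tau_ne l j w this]
        simp

theorem e1 (hc : Coef Γ τ φ NK u b) (i j : T) (a w : V) :
    b i j * u a w = (τ i a * τ j w) • (u (φ i a) (φ j w) * u a w) := by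
  classical
  have h := hc.h
  calc b i j * u a w = ∑ v, u (φ i a) v * b i j * u a w := by
        rw [← Finset.sum_mul, ← Finset.sum_mul, h.rowSum, one_mul]
    _ = (τ i a * τ j w) • (u (φ i a) (φ j w) * u a w) := by
        simp only [hc.key i j a _ w]
        rw [Finset.sum_ite_eq' Finset.univ]
        simp

theorem e2 (hc : Coef Γ τ φ NK u b) (i j : T) (a w : V) :
    u (φ i a) (φ j w) * b i j = (τ i a * τ j w) • (u (φ i a) (φ j w) * u a w) := by
  classical
  have h := hc.h
  calc u (φ i a) (φ j w) * b i j = ∑ v, u (φ i a) (φ j w) * b i j * u a v := by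
        rw [← Finset.mul_sum, h.rowSum, mul_one]
    _ = (τ i a * τ j w) • (u (φ i a) (φ j w) * u a w) := by
        have : ∀ v, u (φ i a) (φ j w) * b i j * u a v = if v = w then
            (τ i a * τ j w) • (u (φ i a) (φ j w) * u a w) else 0 := by
          intro v
          rw [hc.key]
          by_cases hv : v = w
          · subst hv; simp
          · rw [if_neg, if_neg hv]
            intro h'
            apply hv
            have := congrArg (φ j) h'
            rw [hc.hs.inv, hc.hs.inv] at this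
            exact this.symm
        simp only [this]
        rw [Finset.sum_ite_eq' Finset.univ]
        simp

/-- the intertwining relation -/
theorem tw (hc : Coef Γ τ φ NK u b) (i j : T) (a w : V) :
    b i j * u a w = u (φ i a) (φ j w) * b i j := by
  rw [hc.e1, hc.e2]

theorem e3 (hc : Coef Γ τ φ NK u b) (i j : T) (a w : V) :
    u a w * b i j = (τ i a * τ j w) • (u a w * u (φ i a) (φ j w)) := by
  have h := congrArg star (hc.e1 i j a w)
  rw [star_mul, star_smul, star_mul (u _ _) (u _ _), hc.h.star_eq, hc.h.star_eq, hc.st] at h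
  simpa using h

theorem tw2 (hc : Coef Γ τ φ NK u b) (i j k : T) (a w : V) :
    (b i j * b i k) * u a w = u a (φ j (φ k w)) * (b i j * b i k) := by
  rw [mul_assoc, hc.tw, ← mul_assoc, hc.tw, mul_assoc, hc.hs.inv]

theorem zc (hc : Coef Γ τ φ NK u b) (i j : T) (a w : V) :
    (b i j * b i j) * u a w = u a w * (b i j * b i j) := by
  rw [hc.tw2, hc.hs.inv]

theorem zc_al (hc : Coef Γ τ φ NK u b) (i j : T) (F : V → ℝ) (a : V) :
    (b i j * b i j) * al u F a = al u F a * (b i j * b i j) := by
  unfold al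
  rw [Finset.mul_sum, Finset.sum_mul]
  refine Finset.sum_congr rfl fun w _ => ?_
  rw [mul_smul_comm, smul_mul_assoc, hc.zc]

theorem zc_b (hc : Coef Γ τ φ NK u b) (i j k l : T) :
    (b i j * b i j) * b k l = b k l * (b i j * b i j) := by
  obtain ⟨o⟩ := hc.hs.conn.nonempty
  have e := hc.hb k l o
  have hne : (2 * τ k o) ≠ 0 := mul_ne_zero two_ne_zero (hc.hs.tau_ne_zero k o)
  have e' : b k l = (2 * τ k o)⁻¹ • (al u (τ l) o - al u (τ l) (φ k o)) := by
    rw [e, smul_smul, inv_mul_cancel₀ hne, one_smul]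
  rw [e', mul_smul_comm, smul_mul_assoc, mul_sub, sub_mul, hc.zc_al, hc.zc_al]

/-- anticommutation -/
theorem anti (hc : Coef Γ τ φ NK u b) (i : T) {j k : T} (hjk : j ≠ k) :
    b i j * b i k + b i k * b i j = 0 := by
  obtain ⟨a⟩ := hc.hs.conn.nonempty
  have hFK : ∀ w v, Γ.Adj w v → τ j w = τ j v ∨ τ k w = τ k v := fun w v h => hc.hs.tau_or hjk h
  have hab := hc.hs.adj_phi i a
  have e1 := hc.h.L2 hFK hab
  have e2 := hc.h.L2 hFK hab.symm
  have e3 : (al u (τ j) a - al u (τ j) (φ i a)) * (al u (τ k) a - al u (τ k) (φ i a)) +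
      (al u (τ k) a - al u (τ k) (φ i a)) * (al u (τ j) a - al u (τ j) (φ i a)) = 0 := by
    linear_combination (norm := noncomm_ring) e1 + e2
  rw [hc.hb, hc.hb] at e3
  simp only [smul_mul_assoc, mul_smul_comm, smul_smul] at e3
  rw [← smul_add] at e3
  have hne : (2 * τ i a * (2 * τ i a)) ≠ 0 :=
    mul_ne_zero (mul_ne_zero two_ne_zero (hc.hs.tau_ne_zero i a))
      (mul_ne_zero two_ne_zero (hc.hs.tau_ne_zero i a))
  exact smul_cancel hne e3

/-- vanishing away from the flips -/
theorem off (hc : Coef Γ τ φ NK u b) (i : T) (a w v : V) (hv : ∀ l, v ≠ φ l w) :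
    u (φ i a) v * u a w = 0 := by
  by_contra hz
  have hadj : Γ.Adj v w := by
    by_contra hn
    exact hz (hc.h.adj _ _ _ _ fun h' => hn (h'.1 (hc.hs.adj_phi i a).symm))
  rcases (hc.hs.adj w v).1 hadj.symm with hn | ⟨l, rfl⟩
  · exact absurd (hc.h.star_mul_eq_zero (hc.h1.b a w v i hn)) hz
  · exact hv l rfl

theorem off' (hc : Coef Γ τ φ NK u b) (i : T) (a w v : V) (hv : ∀ l, v ≠ φ l w) :
    u a w * u (φ i a) v = 0 := hc.h.star_mul_eq_zero (hc.off i a w v hv)

open Classical in
theorem sum_flip (hc : Coef Γ τ φ NK u b) [Fintype T] (F : V → B) (w : V)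
    (hF : ∀ v, (∀ l, v ≠ φ l w) → F v = 0) : ∑ v, F v = ∑ l, F (φ l w) := by
  have hinj : Function.Injective (fun l => φ l w) := fun l l' h => hc.hs.phi_inj h
  rw [← Finset.sum_subset (Finset.subset_univ (Finset.univ.image (fun l => φ l w)))]
  · rw [Finset.sum_image]
    intro l _ l' _ h
    exact hinj h
  · intro v _ hv
    apply hF
    intro l hl
    apply hv
    rw [Finset.mem_image]
    exact ⟨l, Finset.mem_univ _, hl.symm⟩

/-- the transposed function in terms of the coefficients -/
theorem ft (hc : Coef Γ τ φ NK u b) [Fintype T] (i : T) (w : V) :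
    ∑ a, τ i a • u a w = ∑ l, τ l w • b i l := by
  classical
  have e : ∀ l, τ l w • b i l = ∑ a, τ i a • (u (φ i a) (φ l w) * u a w) := by
    intro l
    calc τ l w • b i l = τ l w • (b i l * ∑ a, u a w) := by rw [hc.h.colSum, mul_one]
      _ = ∑ a, τ i a • (u (φ i a) (φ l w) * u a w) := by
          rw [Finset.mul_sum, Finset.smul_sum]
          refine Finset.sum_congr rfl fun a _ => ?_
          rw [hc.e1, smul_smul]
          congr 1
          have := hc.hs.tau l w
          linear_combination τ i a * this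
  simp only [e]
  rw [Finset.sum_comm]
  refine Finset.sum_congr rfl fun a _ => ?_
  rw [← Finset.smul_sum, ← hc.sum_flip (fun v => u (φ i a) v * u a w) w
    (fun v hv => hc.off i a w v hv), ← Finset.sum_mul, hc.h.rowSum, one_mul]

end Coef

end

end Pool.Agent.Helper43K9.QS
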