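import Mathlib

set_option autoImplicit false
set_option linter.unusedSectionVars false
set_option linter.unusedVariables false

namespace Pool.Agent.Helper43K9.QS

section

variable {T : Type} [Fintype T] {B : Type} [Ring B] [Algebra ℝ B]

/-- linear combinations -/
def LL (b : T → B) (x : T → ℝ) : B := ∑ l, x l • b l

theorem LL_comb (b : T → B) (x y z t : T → ℝ) (p q r s : ℝ) :
    p • LL b x + q • LL b y + r • LL b z + s • LL b t =
      LL b (fun l => p * x l + q * y l + r * z l + s * t l) := by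
  simp only [LL, Finset.smul_sum, smul_smul, ← Finset.sum_add_distrib, ← add_smul]

theorem LL_zc (b : T → B) (z : B) (hz : ∀ l, z * b l = b l * z) (x : T → ℝ) :
    z * LL b x = LL b x * z := by
  unfold LL
  rw [Finset.mul_sum, Finset.sum_mul]
  refine Finset.sum_congr rfl fun l _ => ?_
  rw [mul_smul_comm, smul_mul_assoc, hz]

theorem LL_anti (b : T → B) (hb : ∀ j k, j ≠ k → b j * b k + b k * b j = 0) (j : T) (x : T → ℝ) :
    b j * LL b x + LL b x * b j = (2 * x j) • (b j * b j) := by
  classical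
  unfold LL
  rw [Finset.mul_sum, Finset.sum_mul, ← Finset.sum_add_distrib, Finset.sum_eq_single j]
  · rw [mul_smul_comm, smul_mul_assoc, ← two_smul ℝ (x j • (b j * b j)), smul_smul]
  · intro k _ hk
    rw [mul_smul_comm, smul_mul_assoc, ← smul_add, hb j k (Ne.symm hk), smul_zero]
  · intro h; exact absurd (Finset.mem_univ _) h

theorem LL_anti2 (b : T → B) (hb : ∀ j k, j ≠ k → b j * b k + b k * b j = 0) (x y : T → ℝ) :
    LL b x * LL b y + LL b y * LL b x = ∑ j, (2 * (x j * y j)) • (b j * b j) := by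
  have e : LL b x * LL b y + LL b y * LL b x = ∑ j, x j • (b j * LL b y + LL b y * b j) := by
    conv_lhs => rw [show LL b x = ∑ j, x j • b j from rfl]
    rw [Finset.sum_mul, Finset.mul_sum, ← Finset.sum_add_distrib]
    refine Finset.sum_congr rfl fun j _ => ?_
    rw [smul_mul_assoc, mul_smul_comm, smul_add]
  rw [e]
  refine Finset.sum_congr rfl fun j _ => ?_
  rw [LL_anti b hb, smul_smul]
  congr 1
  ring

theorem clif_main (b : T → B) (hb : ∀ j k, j ≠ k → b j * b k + b k * b j = 0)
    (hz : ∀ j k, (b j * b j) * b k = b k * (b j * b j))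
    (p q t : T → ℝ) (j k : T) (hjk : j ≠ k)
    (hl : b j * (LL b p * LL b (fun l => t l * p l) - LL b (fun l => t l * q l) * LL b q) = 0)
    (hr : (LL b p * LL b (fun l => t l * p l) - LL b (fun l => t l * q l) * LL b q) * b j = 0)
    (hne : (t j - t k) * (p j * p k + q j * q k) ≠ 0) :
    (b j * b j) * (b k * b k) = 0 := by
  obtain ⟨g, hg⟩ : ∃ g, g = LL b p := ⟨_, rfl⟩
  obtain ⟨g', hg'⟩ : ∃ g, g = LL b q := ⟨_, rfl⟩
  obtain ⟨h, hh⟩ : ∃ g, g = LL b (fun l => t l * p l) := ⟨_, rfl⟩
  obtain ⟨h', hh'⟩ : ∃ g, g = LL b (fun l => t l * q l) := ⟨_, rfl⟩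
  rw [← hg, ← hg', ← hh, ← hh'] at hl hr
  have z1 := LL_zc b _ (hz j) p
  have z2 := LL_zc b _ (hz j) q
  have z3 := LL_zc b _ (hz j) (fun l => t l * p l)
  have z4 := LL_zc b _ (hz j) (fun l => t l * q l)
  have a1 := LL_anti b hb j p
  have a2 := LL_anti b hb j q
  have a3 := LL_anti b hb j (fun l => t l * p l)
  have a4 := LL_anti b hb j (fun l => t l * q l)
  rw [← hg] at z1 a1
  rw [← hg'] at z2 a2
  rw [← hh] at z3 a3
  rw [← hh'] at z4 a4
  have e1 : g * h * b j - b j * (g * h) =
      g * (b j * h + h * b j) - (b j * g + g * b j) * h := by noncomm_ring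
  have e2 : h' * g' * b j - b j * (h' * g') =
      h' * (b j * g' + g' * b j) - (b j * h' + h' * b j) * g' := by noncomm_ring
  have e3 : (g * h * b j - b j * (g * h)) - (h' * g' * b j - b j * (h' * g')) = 0 := by
    have : (g * h * b j - b j * (g * h)) - (h' * g' * b j - b j * (h' * g')) =
      (g * h - h' * g') * b j - b j * (g * h - h' * g') := by noncomm_ring
    rw [this, hl, hr, sub_zero]
  rw [e1, e2, a1, a2, a3, a4] at e3
  obtain ⟨z, hzd⟩ : ∃ z, z = b j * b j := ⟨_, rfl⟩
  have e4 : z * ((2 * (t j * p j)) • g + (-(2 * p j)) • h + (-(2 * q j)) • h' +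
      (2 * (t j * q j)) • g') = 0 := by
    rw [← e3]
    rw [← hzd] at z1 z2 z3 z4 ⊢
    simp only [mul_add, mul_smul_comm, smul_mul_assoc, neg_smul, mul_neg]
    rw [z1, z4]
    abel
  rw [hg, hh, hh', hg', LL_comb] at e4
  have hzc : ∀ l, z * b l = b l * z := fun l => by rw [hzd]; exact hz j l
  obtain ⟨c, hc⟩ : ∃ c : T → ℝ, c = (fun l => 2 * (t j * p j) * p l + -(2 * p j) * (t l * p l) +
    -(2 * q j) * (t l * q l) + 2 * (t j * q j) * q l) := ⟨_, rfl⟩
  rw [← hc] at e4
  have a5 := LL_anti b hb k c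
  have e5 : (2 * c k) • (z * (b k * b k)) = 0 := by
    rw [← mul_smul_comm, ← a5, mul_add, ← mul_assoc, ← mul_assoc, e4, zero_mul, add_zero, hzc,
      mul_assoc, e4, mul_zero]
  have hck : c k = 2 * ((t j - t k) * (p j * p k + q j * q k)) := by
    rw [hc]
    ring
  have hne' : 2 * c k ≠ 0 := by
    rw [hck]
    exact mul_ne_zero two_ne_zero (mul_ne_zero two_ne_zero hne)
  have := congrArg (fun x => (2 * c k)⁻¹ • x) e5
  rw [← hzd]
  simpa only [smul_smul, inv_mul_cancel₀ hne', one_smul, smul_zero] using this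

/-- the version used -/
theorem clif_star [StarRing B] [StarModule ℝ B] (hB : ∀ x : B, star x * x = 0 → x = 0)
    (b : T → B) (hst : ∀ j, star (b j) = b j)
    (hb : ∀ j k, j ≠ k → b j * b k + b k * b j = 0)
    (hz : ∀ j k, (b j * b j) * b k = b k * (b j * b j))
    (p q t : T → ℝ) (hpp : ∀ l, p l * p l = 1) (hqq : ∀ l, q l * q l = 1)
    (j k : T) (hjk : j ≠ k)
    (hl : b j * (LL b p * LL b (fun l => t l * p l) - LL b (fun l => t l * q l) * LL b q) = 0)
    (hne : (t j - t k) * (p j * p k + q j * q k) ≠ 0) :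
    b j * b k = 0 := by
  have hLs : ∀ x, star (LL b x) = LL b x := by
    intro x
    unfold LL
    rw [star_sum]
    refine Finset.sum_congr rfl fun l _ => ?_
    rw [star_smul, hst]
    simp
  have hr : (LL b p * LL b (fun l => t l * p l) - LL b (fun l => t l * q l) * LL b q) * b j = 0 := by
    have h1 := congrArg star hl
    rw [star_mul, star_sub, star_mul, star_mul, hLs, hLs, hLs, hLs, hst, star_zero] at h1
    have h2 := LL_anti2 b hb p (fun l => t l * p l)
    have h3 := LL_anti2 b hb q (fun l => t l * q l)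
    have h4 : LL b p * LL b (fun l => t l * p l) + LL b (fun l => t l * p l) * LL b p =
        LL b q * LL b (fun l => t l * q l) + LL b (fun l => t l * q l) * LL b q := by
      rw [h2, h3]
      refine Finset.sum_congr rfl fun l _ => ?_
      congr 1
      linear_combination 2 * t l * hpp l - 2 * t l * hqq l
    have h5 : (LL b p * LL b (fun l => t l * p l) - LL b (fun l => t l * q l) * LL b q) =
        - (LL b (fun l => t l * p l) * LL b p - LL b q * LL b (fun l => t l * q l)) := by
      linear_combination (norm := noncomm_ring) h4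
    rw [h5, neg_mul, h1, neg_zero]
  have h0 := clif_main b hb hz p q t j k hjk hl hr hne
  apply hB
  rw [star_mul, hst, hst]
  calc b k * b j * (b j * b k) = b k * ((b j * b j) * b k) := by noncomm_ring
    _ = b k * (b k * (b j * b j)) := by rw [hz]
    _ = (b k * b k) * (b j * b j) := by noncomm_ring
    _ = (b j * b j) * (b k * b k) := by
        rw [← mul_assoc (b j * b j), hz j k, mul_assoc (b k) (b j * b j) (b k), hz j k, mul_assoc]
    _ = 0 := h0

end

end Pool.Agent.Helper43K9.QS
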