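import Pool.Agent.Helper43K9.QS.Abs
import Pool.Agent.Helper43K9.QS.Clif

set_option autoImplicit false
set_option linter.unusedSectionVars false
set_option linter.unusedVariables false

namespace Pool.Agent.Helper43K9.QS

open Pool.Agent.H741.QS

section

variable {V : Type} [Fintype V] {B : Type} [Ring B] [StarRing B] [Algebra ℝ B] [StarModule ℝ B]
variable {Γ : SimpleGraph V} {T : Type} {τ : T → V → ℝ} {φ : T → V → V} {NK : V → V → Prop}
variable {u : V → V → B} {b : T → T → B} {H : SimpleGraph V}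

namespace Coef

/-- the double flip preserves `H` -/
theorem inv_pair (hc : Coef Γ τ φ NK u b) (hH : QIso H H u) (i j k : T)
    (hne : b i j * b i k ≠ 0) (w v : V) :
    H.Adj (φ j (φ k w)) (φ j (φ k v)) ↔ H.Adj w v := by
  by_contra hcon
  apply hne
  have key : ∀ a c, (b i j * b i k) * (u a w * u c v) = 0 := by
    intro a c
    by_cases h1 : H.Adj a c ↔ H.Adj w v
    · have h2 : u a (φ j (φ k w)) * u c (φ j (φ k v)) = 0 :=
        hH.adj _ _ _ _ fun h' => hcon (h'.symm.trans h1)
      rw [← mul_assoc, hc.tw2, mul_assoc, hc.tw2, ← mul_assoc, h2, zero_mul]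
    · rw [hH.adj _ _ _ _ h1, mul_zero]
  calc b i j * b i k = (b i j * b i k) * ((∑ a, u a w) * (∑ c, u c v)) := by
        rw [hc.h.colSum, hc.h.colSum, mul_one, mul_one]
    _ = 0 := by
        rw [Finset.sum_mul_sum, Finset.mul_sum]
        refine Finset.sum_eq_zero fun a _ => ?_
        rw [Finset.mul_sum]
        exact Finset.sum_eq_zero fun c _ => key a c

open Classical in
/-- the adjacency of `H` as a real number -/
noncomputable def tt (H : SimpleGraph V) (a c : V) : ℝ := if H.Adj a c then 1 else 0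

theorem tt_congr {a c a' c' : V} (h : H.Adj a c ↔ H.Adj a' c') : tt H a c = tt H a' c' := by
  classical
  unfold tt
  by_cases h1 : H.Adj a c
  · rw [if_pos h1, if_pos (h.1 h1)]
  · rw [if_neg h1, if_neg (fun h2 => h1 (h.2 h2))]

theorem tt_inj {a c a' c' : V} (h : tt H a c = tt H a' c') : H.Adj a c ↔ H.Adj a' c' := by
  unfold tt at h
  by_cases h1 : H.Adj a c <;> by_cases h2 : H.Adj a' c' <;> simp_all

/-- the correlation -/
def YY (φ : T → V → V) (u : V → V → B) (i : T) (w v : V) : B := ∑ a, u a w * u (φ i a) v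

/-- the transposed function -/
def ff (τ : T → V → ℝ) (u : V → V → B) (i : T) (w : V) : B := ∑ a, τ i a • u a w

theorem sum_phi (hc : Coef Γ τ φ NK u b) (i : T) (F : V → B) : ∑ a, F (φ i a) = ∑ a, F a := by
  let e : V ≃ V := ⟨φ i, φ i, hc.hs.inv i, hc.hs.inv i⟩
  exact Equiv.sum_comp e F

theorem Y1 (hc : Coef Γ τ φ NK u b) (i l : T) (w : V) :
    YY φ u i w (φ l w) = τ l w • (ff τ u i w * b i l) := by
  unfold YY ff
  rw [Finset.sum_mul, Finset.smul_sum]
  refine Finset.sum_congr rfl fun a _ => ?_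
  rw [smul_mul_assoc, hc.e3, smul_smul, smul_smul]
  have h1 := hc.hs.tau i a
  have h2 := hc.hs.tau l w
  have : τ l w * (τ i a * (τ i a * τ l w)) = 1 := by
    calc τ l w * (τ i a * (τ i a * τ l w)) = (τ i a * τ i a) * (τ l w * τ l w) := by ring
      _ = 1 := by rw [h1, h2]; ring
  rw [← mul_assoc] at this
  rw [mul_assoc, ← mul_assoc, this, one_smul]

theorem Y2 (hc : Coef Γ τ φ NK u b) (i l : T) (w : V) :
    YY φ u i (φ l w) w = τ l w • (b i l * ff τ u i w) := by
  have e : YY φ u i (φ l w) w = ∑ a, u (φ i a) (φ l w) * u a w := by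
    unfold YY
    rw [← hc.sum_phi i (fun a => u a (φ l w) * u (φ i a) w)]
    refine Finset.sum_congr rfl fun a _ => ?_
    rw [hc.hs.inv]
  rw [e]
  unfold ff
  rw [Finset.mul_sum, Finset.smul_sum]
  refine Finset.sum_congr rfl fun a _ => ?_
  rw [mul_smul_comm, hc.e1, smul_smul, smul_smul]
  have h1 := hc.hs.tau i a
  have h2 := hc.hs.tau l w
  have : τ l w * (τ i a * (τ i a * τ l w)) = 1 := by
    calc τ l w * (τ i a * (τ i a * τ l w)) = (τ i a * τ i a) * (τ l w * τ l w) := by ring
      _ = 1 := by rw [h1, h2]; ring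
  rw [mul_assoc, this, one_smul]

theorem Y0 (hc : Coef Γ τ φ NK u b) (i : T) (w v : V) (hv : ∀ l, v ≠ φ l w) :
    YY φ u i w v = 0 := by
  unfold YY
  exact Finset.sum_eq_zero fun a _ => hc.off' i a w v hv

theorem relT (hc : Coef Γ τ φ NK u b) (hH : QIso H H u) (i j : T) (a c w v : V)
    (hne : tt H (φ i a) (φ i c) ≠ tt H (φ j w) (φ j v)) : b i j * (u a w * u c v) = 0 := by
  rw [← mul_assoc, hc.tw, mul_assoc, hc.tw, ← mul_assoc, hH.adj, zero_mul]
  exact fun h' => hne (tt_congr h')

theorem relT' (hc : Coef Γ τ φ NK u b) (hH : QIso H H u) (i j : T) (c w : V) :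
    b i j * ∑ a, tt H (φ i a) (φ i c) • u a w =
      b i j * ∑ x, tt H (φ j w) (φ j x) • u c x := by
  calc b i j * ∑ a, tt H (φ i a) (φ i c) • u a w
      = ∑ a, ∑ x, tt H (φ i a) (φ i c) • (b i j * (u a w * u c x)) := by
        rw [Finset.mul_sum]
        refine Finset.sum_congr rfl fun a _ => ?_
        rw [← Finset.smul_sum, ← Finset.mul_sum, ← Finset.mul_sum, hc.h.rowSum, mul_one,
          mul_smul_comm]
    _ = ∑ a, ∑ x, tt H (φ j w) (φ j x) • (b i j * (u a w * u c x)) := by
        refine Finset.sum_congr rfl fun a _ => Finset.sum_congr rfl fun x _ => ?_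
        by_cases h : tt H (φ i a) (φ i c) = tt H (φ j w) (φ j x)
        · rw [h]
        · rw [hc.relT hH i j a c w x h, smul_zero, smul_zero]
    _ = b i j * ∑ x, tt H (φ j w) (φ j x) • u c x := by
        rw [Finset.sum_comm, Finset.mul_sum]
        refine Finset.sum_congr rfl fun x _ => ?_
        rw [← Finset.smul_sum, ← Finset.mul_sum, ← Finset.sum_mul, hc.h.colSum, one_mul,
          mul_smul_comm]

variable [Fintype T]

theorem ff_eq (hc : Coef Γ τ φ NK u b) (i : T) (w : V) :
    ff τ u i w = LL (b i) (fun l => τ l w) := hc.ft i w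

theorem relR (hc : Coef Γ τ φ NK u b) (hH : QIso H H u) (i j : T) (w v : V) :
    b i j * ∑ l, tt H (φ l w) v • YY φ u i w (φ l w) =
      b i j * ∑ l, tt H (φ j w) (φ j (φ l v)) • YY φ u i (φ l v) v := by
  classical
  obtain ⟨Z, hZ⟩ : ∃ Z, Z = ∑ a, ∑ c, tt H (φ i a) c • (u a w * u c v) := ⟨_, rfl⟩
  have h1 : Z = ∑ l, tt H (φ l w) v • YY φ u i w (φ l w) := by
    have hp := (hc.h.pres_iff (u := u) (tt H) (tt H)).1
    have hpres : QIso.Pres u (tt H) (tt H) := by
      intro a c w v hne
      exact hH.adj _ _ _ _ fun h' => hne (tt_congr h')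
    have hp' := (hH.pres_iff (tt H) (tt H)).1 hpres
    calc Z = ∑ a, u a w * ∑ c, tt H (φ i a) c • u c v := by
          rw [hZ]
          refine Finset.sum_congr rfl fun a _ => ?_
          rw [Finset.mul_sum]
          refine Finset.sum_congr rfl fun c _ => ?_
          rw [mul_smul_comm]
      _ = ∑ a, u a w * ∑ x, tt H x v • u (φ i a) x := by
          refine Finset.sum_congr rfl fun a _ => ?_
          rw [hp']
      _ = ∑ x, tt H x v • YY φ u i w x := by
          unfold YY
          simp only [Finset.mul_sum, Finset.smul_sum]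
          rw [Finset.sum_comm]
          refine Finset.sum_congr rfl fun x _ => Finset.sum_congr rfl fun a _ => ?_
          rw [mul_smul_comm]
      _ = ∑ l, tt H (φ l w) v • YY φ u i w (φ l w) :=
          hc.sum_flip (fun x => tt H x v • YY φ u i w x) w fun x hx => by
            rw [hc.Y0 i w x hx, smul_zero]
  have h2 : b i j * Z = b i j * ∑ l, tt H (φ j w) (φ j (φ l v)) • YY φ u i (φ l v) v := by
    have e1 : Z = ∑ c, (∑ a, tt H (φ i a) (φ i c) • u a w) * u (φ i c) v := by
      rw [hZ, Finset.sum_comm, ← hc.sum_phi i (fun c => ∑ a, tt H (φ i a) c • (u a w * u c v))]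
      refine Finset.sum_congr rfl fun c _ => ?_
      rw [Finset.sum_mul]
      refine Finset.sum_congr rfl fun a _ => ?_
      rw [smul_mul_assoc]
    calc b i j * Z = ∑ c, (b i j * ∑ a, tt H (φ i a) (φ i c) • u a w) * u (φ i c) v := by
          rw [e1, Finset.mul_sum]
          refine Finset.sum_congr rfl fun c _ => ?_
          rw [mul_assoc]
      _ = ∑ c, (b i j * ∑ x, tt H (φ j w) (φ j x) • u c x) * u (φ i c) v := by
          refine Finset.sum_congr rfl fun c _ => ?_
          rw [hc.relT' hH]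
      _ = b i j * ∑ x, tt H (φ j w) (φ j x) • YY φ u i x v := by
          unfold YY
          simp only [Finset.mul_sum, Finset.sum_mul, Finset.smul_sum]
          rw [Finset.sum_comm]
          refine Finset.sum_congr rfl fun x _ => Finset.sum_congr rfl fun c _ => ?_
          rw [mul_smul_comm, smul_mul_assoc, mul_smul_comm, mul_assoc]
      _ = b i j * ∑ l, tt H (φ j w) (φ j (φ l v)) • YY φ u i (φ l v) v := by
          rw [hc.sum_flip (fun x => tt H (φ j w) (φ j x) • YY φ u i x v) v]
          intro x hx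
          rw [hc.Y0 i x v, smul_zero]
          intro l hl
          apply hx l
          rw [hl, hc.hs.inv]
  rw [← h1, h2]

/-- the main relation -/
theorem relX (hc : Coef Γ τ φ NK u b) (hH : QIso H H u) (i j : T) (w v : V) :
    b i j * (LL (b i) (fun l => τ l w) * LL (b i) (fun l => tt H (φ l w) v * τ l w) -
      LL (b i) (fun l => tt H (φ l w) v * τ l v) * LL (b i) (fun l => τ l v)) = 0 := by
  have h0 := hc.relR hH i j w v
  have e1 : ∑ l, tt H (φ l w) v • YY φ u i w (φ l w) =
      LL (b i) (fun l => τ l w) * LL (b i) (fun l => tt H (φ l w) v * τ l w) := by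
    rw [← hc.ff_eq]
    unfold LL
    rw [Finset.mul_sum]
    refine Finset.sum_congr rfl fun l _ => ?_
    rw [hc.Y1, smul_smul, mul_smul_comm]
  have e2 : b i j * ∑ l, tt H (φ j w) (φ j (φ l v)) • YY φ u i (φ l v) v =
      b i j * (LL (b i) (fun l => tt H (φ l w) v * τ l v) * LL (b i) (fun l => τ l v)) := by
    rw [← hc.ff_eq]
    conv_rhs => rw [show LL (b i) (fun l => tt H (φ l w) v * τ l v) =
      ∑ l, (tt H (φ l w) v * τ l v) • b i l from rfl]
    rw [Finset.sum_mul, Finset.mul_sum, Finset.mul_sum]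
    refine Finset.sum_congr rfl fun l _ => ?_
    rw [hc.Y2, smul_smul, smul_mul_assoc, mul_smul_comm, mul_smul_comm, ← mul_assoc]
    by_cases hz : b i j * b i l = 0
    · rw [hz, zero_mul, smul_zero, smul_zero]
    · congr 2
      have := hc.inv_pair hH i j l hz (φ l w) v
      rw [hc.hs.inv] at this
      exact tt_congr this
  rw [mul_sub, ← e1, ← e2, h0, sub_self]

/-- the symmetry of `H` forced by a nonzero product of two coefficients -/
theorem sym_of_ne (hc : Coef Γ τ φ NK u b) (hH : QIso H H u)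
    (hB : ∀ x : B, star x * x = 0 → x = 0) (i j k : T) (hjk : j ≠ k)
    (hne : b i j * b i k ≠ 0) (w v : V) (hwv : τ j w * τ k w = τ j v * τ k v) :
    H.Adj (φ j w) v ↔ H.Adj (φ k w) v := by
  by_contra hcon
  apply hne
  refine clif_star hB (b i) (hc.st i) (fun j k h => hc.anti i h) (fun j k => hc.zc_b i j i k)
    (fun l => τ l w) (fun l => τ l v) (fun l => tt H (φ l w) v)
    (fun l => hc.hs.tau l w) (fun l => hc.hs.tau l v) j k hjk (hc.relX hH i j w v) ?_
  apply mul_ne_zero
  · intro h0
    exact hcon (tt_inj (sub_eq_zero.1 h0))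
  · rw [hwv]
    have h1 := hc.hs.tau_ne_zero j v
    have h2 := hc.hs.tau_ne_zero k v
    rw [← two_mul]
    exact mul_ne_zero two_ne_zero (mul_ne_zero h1 h2)

end Coef

end

end Pool.Agent.Helper43K9.QS
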