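import Pool.Agent.Helper43K9.QS.AbsH
import Pool.Agent.Helper741.QSym.Central

set_option autoImplicit false
set_option linter.unusedSectionVars false
set_option linter.unusedVariables false

namespace Pool.Agent.Helper43K9.QS

open Pool.Agent.H741.QS

/-- as `no_bad`, but only `K_2`-freeness of the factor concerned is needed -/
theorem no_bad_dir {ι : Type} [Fintype ι] [DecidableEq ι] {P : ι → Type} [∀ i, Fintype (P i)]
    (G : ∀ i, SimpleGraph (P i)) (hG : ∀ i, (G i).Connected) (k : ι) (hK : NoK2 (G k))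
    (Bd : (∀ i, P i) → (∀ i, P i) → Prop)
    (b1 : ∀ a b, Bd a b → (boxPi G).Adj a b)
    (b2 : ∀ a b, Bd a b → Bd b a)
    (b3 : ∀ a b c, Bd a b → (boxPi G).Adj a c → c ≠ b →
      ∃ d, (boxPi G).Adj b d ∧ (boxPi G).Adj c d ∧ Bd c d ∧
        ∀ z, ((boxPi G).dist a z : ℤ) - (boxPi G).dist b z =
          (boxPi G).dist c z - (boxPi G).dist d z) :
    ∀ a b, DirAdj G k a b → ¬ Bd a b := by
  intro a0 b0 hk0 hbd
  have hZ := boxPi_connected G hG
  obtain ⟨hk1, hk2⟩ := hk0
  set h : (∀ i, P i) → ℤ := fun z => ((boxPi G).dist a0 z : ℤ) - (boxPi G).dist b0 z with hh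
  set h1 : P k → ℤ := fun q => ((G k).dist (a0 k) q : ℤ) - (G k).dist (b0 k) q with hh1
  have hz : ∀ z, h z = h1 (z k) := fun z => dist_diff G hG k a0 b0 z hk2
  have claim : ∀ z, ∃ z', (Bd z z' ∧ ∀ w, ((boxPi G).dist z w : ℤ) - (boxPi G).dist z' w = h w) ∨
      (Bd z' z ∧ ∀ w, ((boxPi G).dist z' w : ℤ) - (boxPi G).dist z w = h w) := by
    have step : ∀ a c, (boxPi G).Adj a c → 
      (∃ z', (Bd a z' ∧ ∀ w, ((boxPi G).dist a w : ℤ) - (boxPi G).dist z' w = h w) ∨
        (Bd z' a ∧ ∀ w, ((boxPi G).dist z' w : ℤ) - (boxPi G).dist a w = h w)) →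
      (∃ z', (Bd c z' ∧ ∀ w, ((boxPi G).dist c w : ℤ) - (boxPi G).dist z' w = h w) ∨
        (Bd z' c ∧ ∀ w, ((boxPi G).dist z' w : ℤ) - (boxPi G).dist c w = h w)) := by
      rintro a c hac ⟨b, ⟨hb1, hb2⟩ | ⟨hb1, hb2⟩⟩
      · by_cases hcb : c = b
        · subst hcb; exact ⟨a, Or.inr ⟨hb1, hb2⟩⟩
        · obtain ⟨d, _, _, hd3, hd4⟩ := b3 a b c hb1 hac hcb
          exact ⟨d, Or.inl ⟨hd3, fun w => by rw [← hd4 w]; exact hb2 w⟩⟩
      · by_cases hcb : c = b
        · subst hcb; exact ⟨a, Or.inl ⟨hb1, hb2⟩⟩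
        · obtain ⟨d, _, _, hd3, hd4⟩ := b3 a b c (b2 _ _ hb1) hac hcb
          refine ⟨d, Or.inr ⟨b2 _ _ hd3, fun w => ?_⟩⟩
          have e1 := hd4 w
          have e2 := hb2 w
          omega
    intro z
    obtain ⟨p⟩ := hZ.preconnected a0 z
    have hwalk : ∀ (u v : ∀ i, P i) (p : (boxPi G).Walk u v), 
      (∃ z', (Bd u z' ∧ ∀ w, ((boxPi G).dist u w : ℤ) - (boxPi G).dist z' w = h w) ∨
        (Bd z' u ∧ ∀ w, ((boxPi G).dist z' w : ℤ) - (boxPi G).dist u w = h w)) →
      (∃ z', (Bd v z' ∧ ∀ w, ((boxPi G).dist v w : ℤ) - (boxPi G).dist z' w = h w) ∨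
        (Bd z' v ∧ ∀ w, ((boxPi G).dist z' w : ℤ) - (boxPi G).dist v w = h w)) := by
      intro u v p
      induction p with
      | nil => exact id
      | cons hadj _ ih => intro hu; exact ih (step _ _ hadj hu)
    exact hwalk a0 z p ⟨b0, Or.inl ⟨hbd, fun w => rfl⟩⟩
  have main : ∀ p : P k, ∃ p', (G k).Adj p p' ∧ ((∀ q, ((G k).dist p q : ℤ) - (G k).dist p' q = h1 q) ∨
      (∀ q, ((G k).dist p' q : ℤ) - (G k).dist p q = h1 q)) := by
    intro p
    set z := Function.update a0 k p with hzdef
    have hzk : z k = p := by rw [hzdef]; simp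
    obtain ⟨z', hz'⟩ := claim z
    have hadj : (boxPi G).Adj z z' := by
      rcases hz' with h' | h'
      · exact b1 _ _ h'.1
      · exact (b1 _ _ h'.1).symm
    have hd1 : ((boxPi G).dist z z' : ℤ) = 1 := by
      have := SimpleGraph.dist_eq_one_iff_adj.2 hadj; exact_mod_cast this
    have hd1' : ((boxPi G).dist z' z : ℤ) = 1 := by rw [SimpleGraph.dist_comm]; exact hd1
    have hne : h z ≠ h z' := by
      rcases hz' with h' | h'
      · have e1 := h'.2 z
        have e2 := h'.2 z'
        rw [SimpleGraph.dist_self, hd1'] at e1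
        rw [SimpleGraph.dist_self, hd1] at e2
        push_cast at e1 e2
        omega
      · have e1 := h'.2 z
        have e2 := h'.2 z'
        rw [SimpleGraph.dist_self, hd1'] at e1
        rw [SimpleGraph.dist_self, hd1] at e2
        push_cast at e1 e2
        omega
    obtain ⟨i, hi1, hi2⟩ := hadj
    have hik : i = k := by
      by_contra hik
      apply hne
      rw [hz z, hz z', hi2 k (Ne.symm hik)]
    subst hik
    refine ⟨z' i, by rw [← hzk]; exact hi1, ?_⟩
    rcases hz' with h' | h'
    · left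
      intro q
      have e := h'.2 (Function.update a0 i q)
      rw [dist_diff G hG i z z' _ hi2, hz, hzk] at e
      simpa using e
    · right
      intro q
      have e := h'.2 (Function.update a0 i q)
      rw [dist_diff G hG i z' z _ (fun j hj => (hi2 j hj).symm), hz, hzk] at e
      simpa using e
  obtain ⟨W, hW, H, hiso⟩ := k2_struct (G k) (hG k) h1 main
  exact (hK W H).false hiso.some

/-- a prime graph which does not have exactly two vertices has no factor `K_2` -/
theorem noK2_of_prime {V : Type} [Fintype V] (G : SimpleGraph V) (h2 : 2 ≤ Fintype.card V)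
    (hp : PrimeGraph G) (hne : Fintype.card V ≠ 2) : NoK2 G := by
  intro W _ Y
  refine ⟨fun e => ?_⟩
  have hcard := Fintype.card_congr e.toEquiv
  rw [Fintype.card_prod, Fintype.card_bool] at hcard
  by_cases hW : 2 ≤ Fintype.card W
  · exact (hp Bool W ⊤ Y (by simp) hW).false e
  · omega

section

variable {J : Type} [Fintype J] [DecidableEq J] {P : J → Type} [∀ k, Fintype (P k)]
variable {A : Type} [Ring A] [StarRing A] [Algebra ℝ A] [StarModule ℝ A]

theorem good_dir (G : ∀ k, SimpleGraph (P k)) (hG : ∀ k, (G k).Connected)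
    (hB : ∀ x : A, star x * x = 0 → x = 0)
    (u : (∀ k, P k) → (∀ k, P k) → A) (h : QIso (boxPi G) (boxPi G) u) (k : J) (hK : NoK2 (G k))
    (l : J) {a b : ∀ k, P k} (hab : DirAdj G k a b) :
    Good (boxPi G) (fun w : ∀ k, P k => w l) (rest P l) u a b := by
  by_contra hbad
  have hs := split_boxPi G hG l
  refine no_bad_dir G hG k hK (fun a b => (boxPi G).Adj a b ∧
    ¬ Good (boxPi G) (fun w : ∀ k, P k => w l) (rest P l) u a b) ?_ ?_ ?_ a b hab
      ⟨⟨k, hab.1, hab.2⟩, hbad⟩
  · intro a b h1; exact h1.1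
  · rintro a b ⟨h1, h2⟩
    exact ⟨h1.symm, fun h3 => h2 (good_symm h hs h1.symm h3)⟩
  · rintro a b c ⟨h1, h2⟩ h3 h4
    obtain ⟨d, h5, h6, h7, h8⟩ := bad_move h (boxPi_connected G hG) hs hB h1 h2 h3 h4
    exact ⟨d, h5, h6, ⟨h6, h7⟩, h8⟩

/-- the central projection of a direction all of whose edges are good -/
theorem central_dir (G : ∀ k, SimpleGraph (P k)) (hG : ∀ k, (G k).Connected)
    (hP : ∀ k, 2 ≤ Fintype.card (P k)) (hprime : ∀ k, PrimeGraph (G k))
    (hB : ∀ x : A, star x * x = 0 → x = 0)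
    (u : (∀ k, P k) → (∀ k, P k) → A) (h : QIso (boxPi G) (boxPi G) u) (k l : J)
    (hgood : ∀ a b : ∀ k, P k, DirAdj G k a b →
      Good (boxPi G) (fun w : ∀ k, P k => w l) (rest P l) u a b) :
    ∃ E : A, star E = E ∧ E * E = E ∧ (∀ a w, E * u a w = u a w * E) ∧
      (∀ a b w v, DirAdj G k a b → u a w * u b v * E =
        open Classical in if DirAdj G l w v then u a w * u b v else 0) := by
  classical
  have hconn := boxPi_connected G hG
  obtain ⟨o⟩ := hconn.nonempty
  obtain ⟨b, hb⟩ := exists_nbr G hG hP k o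
  have hs := split_boxPi G hG l
  have hadj : ∀ {k} {a b : ∀ k, P k}, DirAdj G k a b → (boxPi G).Adj a b :=
    fun {k} {a b} h => ⟨k, h.1, h.2⟩
  have hconst : ∀ {a c : ∀ k, P k}, DirAdj G k a c →
      EE (Dir1 (boxPi G) (rest P l)) u a c = EE (Dir1 (boxPi G) (rest P l)) u o b := by
    intro c d hcd
    refine (par_lift G hG (fun i S hS h1 a b hab => par_irred (G i) (hG i) (hprime i) S hS h1 a b hab)
      (fun c d => Good (boxPi G) (fun w : ∀ k, P k => w l) (rest P l) u c d ∧
        EE (Dir1 (boxPi G) (rest P l)) u c d = EE (Dir1 (boxPi G) (rest P l)) u o b)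
      ?_ k o b c d hb hcd ⟨hgood _ _ hb, rfl⟩).2
    constructor
    · rintro x y hxy ⟨h0, h1⟩
      refine ⟨good_symm h hs hxy h0, ?_⟩
      rw [← h1]
      exact (EE_flip h hs hxy h0).symm
    · rintro x y z hxy hxz hyz hn ⟨h0, h1⟩
      refine ⟨good_loc h hs hxz hxy hyz.symm (fun ⟨d, hd⟩ => hn ⟨d, hd.symm⟩), ?_⟩
      rw [← h1]
      exact (EE_loc h hs hxy hxz hyz hn).symm
    · rintro x y z t hd ⟨h0, h1⟩
      have hzt : Good (boxPi G) (fun w : ∀ k, P k => w l) (rest P l) u z t := by
        by_contra hbad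
        obtain ⟨e, he⟩ : ∃ e, Diag (boxPi G) t x z e := by
          by_contra hno
          exact hbad (good_loc h hs hd.adj4 hd.adj2 hd.2.2.1.symm hno)
        obtain ⟨d', h5, h6, h7, h8⟩ := bad_move h hconn hs hB hd.adj4 hbad hd.adj2 hd.2.2.1
        have hy : y = z ∨ y = e := (he.2.2.2 y).1 ⟨hd.adj3.symm, hd.adj1.symm⟩
        have hd' : d' = z ∨ d' = e := (he.2.2.2 d').1 ⟨h5, h6⟩
        have hye : y = e := hy.resolve_left hd.1
        rcases hd' with hd' | hd'
        · subst hd'
          have e1 := h8 d'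
          have e2 : (boxPi G).dist t d' = 1 := SimpleGraph.dist_eq_one_iff_adj.2 h5
          have e3 : (boxPi G).dist x d' = 1 := SimpleGraph.dist_eq_one_iff_adj.2 h6
          rw [SimpleGraph.dist_self, e2, e3] at e1
          norm_num at e1
        · apply h7
          rw [hd', ← hye]
          exact h0
      refine ⟨hzt, ?_⟩
      rw [← h1]
      exact (EE_sq h hs hd h0 hzt).symm
    · rintro x y z t s hd1 hd2 hz ⟨h0, h1⟩
      have hz' : ((boxPi G).dist x s : ℤ) - (boxPi G).dist z s - (boxPi G).dist y s +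
          (boxPi G).dist t s ≠ 0 := by
        intro h'
        apply hz
        linarith
      obtain ⟨g2, -⟩ := lambda_good h hconn hs hB hd1.symm hd2.symm' hz'
      refine ⟨g2, ?_⟩
      rw [← h1]
      exact (EE_tw h hconn hs hB hd1 hd2 hz).symm
  have hp := EE_props h hs (hadj hb) (hgood _ _ hb)
  have hcu : ∀ a w, EE (Dir1 (boxPi G) (rest P l)) u o b * u a w =
      u a w * EE (Dir1 (boxPi G) (rest P l)) u o b := by
    intro a w
    obtain ⟨c, hc⟩ := exists_nbr G hG hP k a
    rw [← hconst hc]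
    exact (EE_props h hs (hadj hc) (hgood _ _ hc)).2.2.1 w
  refine ⟨EE (Dir1 (boxPi G) (rest P l)) u o b, hp.1, hp.2.1, hcu, ?_⟩
  intro a c w v hac
  rw [mul_assoc, ← hcu, ← mul_assoc, ← hconst hac, EE_sandwich h]
  by_cases hd : DirAdj G l w v
  · rw [if_pos hd, if_pos ((dir1_iff G l w v).2 hd)]
  · rw [if_neg hd, if_neg (fun h' => hd ((dir1_iff G l w v).1 h'))]

/-- all the central projections, once all edges are good -/
theorem exists_central_of_good (G : ∀ k, SimpleGraph (P k)) (hG : ∀ k, (G k).Connected)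
    (hP : ∀ k, 2 ≤ Fintype.card (P k)) (hprime : ∀ k, PrimeGraph (G k))
    (hB : ∀ x : A, star x * x = 0 → x = 0)
    (u : (∀ k, P k) → (∀ k, P k) → A) (h : QIso (boxPi G) (boxPi G) u)
    (hgood : ∀ (k l : J) (a b : ∀ k, P k), DirAdj G k a b →
      Good (boxPi G) (fun w : ∀ k, P k => w l) (rest P l) u a b) :
    ∃ E : J → J → A, (∀ k l, star (E k l) = E k l) ∧ (∀ k l, E k l * E k l = E k l) ∧
      (∀ k l k' l', E k l * E k' l' = E k' l' * E k l) ∧ (∀ k, ∑ l, E k l = 1) ∧
      (∀ k l a w, E k l * u a w = u a w * E k l) ∧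
      (∀ k l a b w v, DirAdj G k a b → ¬ DirAdj G l w v → u a w * u b v * E k l = 0) := by
  classical
  choose E e1 e2 e3 e4 using fun k l => central_dir G hG hP hprime hB u h k l (hgood k l)
  have hconn := boxPi_connected G hG
  obtain ⟨o⟩ := hconn.nonempty
  have hexp : ∀ k l {a b : ∀ k, P k}, DirAdj G k a b →
      E k l = ∑ w, ∑ v, if DirAdj G l w v then u a w * u b v else 0 := by
    intro k l a b hab
    calc E k l = (∑ w, u a w) * (∑ v, u b v) * E k l := by
          rw [h.rowSum, h.rowSum, one_mul, one_mul]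
      _ = ∑ w, ∑ v, if DirAdj G l w v then u a w * u b v else 0 := by
          rw [Finset.sum_mul_sum, Finset.sum_mul]
          refine Finset.sum_congr rfl fun w _ => ?_
          rw [Finset.sum_mul]
          refine Finset.sum_congr rfl fun v _ => ?_
          rw [e4 k l a b w v hab]
  refine ⟨E, e1, e2, ?_, ?_, e3, ?_⟩
  · intro k l k' l'
    obtain ⟨b, hb⟩ := exists_nbr G hG hP k' o
    rw [hexp k' l' hb, Finset.mul_sum, Finset.sum_mul]
    refine Finset.sum_congr rfl fun w _ => ?_
    rw [Finset.mul_sum, Finset.sum_mul]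
    refine Finset.sum_congr rfl fun v _ => ?_
    split_ifs
    · rw [← mul_assoc, e3, mul_assoc, e3, mul_assoc]
    · simp
  · intro k
    obtain ⟨b, hb⟩ := exists_nbr G hG hP k o
    have hadj : (boxPi G).Adj o b := ⟨k, hb.1, hb.2⟩
    have hx : ∀ w v, ∑ l, (if DirAdj G l w v then u o w * u b v else 0) = u o w * u b v := by
      intro w v
      by_cases hwv : (boxPi G).Adj w v
      · obtain ⟨i, hi, hne⟩ := hwv
        rw [Finset.sum_eq_single i]
        · rw [if_pos ⟨hi, hne⟩]
        · intro l _ hl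
          rw [if_neg]
          rintro ⟨h1, h2⟩
          have h3 := h2 i (Ne.symm hl)
          rw [h3] at hi
          exact hi.ne rfl
        · intro hi'; exact absurd (Finset.mem_univ _) hi'
      · have h0 : u o w * u b v = 0 := h.adj _ _ _ _ fun h' => hwv (h'.1 hadj)
        rw [h0]
        simp
    calc ∑ l, E k l = ∑ l, ∑ w, ∑ v, (if DirAdj G l w v then u o w * u b v else 0) :=
          Finset.sum_congr rfl fun l _ => hexp k l hb
      _ = ∑ w, ∑ v, ∑ l, (if DirAdj G l w v then u o w * u b v else 0) := by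
          rw [Finset.sum_comm]
          refine Finset.sum_congr rfl fun w _ => ?_
          rw [Finset.sum_comm]
      _ = ∑ w, ∑ v, u o w * u b v := by
          refine Finset.sum_congr rfl fun w _ => Finset.sum_congr rfl fun v _ => hx w v
      _ = 1 := by
          simp only [← Finset.mul_sum, h.rowSum, mul_one]
  · intro k l a b w v hab hn
    rw [e4 k l a b w v hab, if_neg hn]

/-- a direction with at least three vertices does not mix with a direction with two vertices -/
theorem s1_core (G : ∀ k, SimpleGraph (P k)) (hG : ∀ k, (G k).Connected)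
    (hP : ∀ k, 2 ≤ Fintype.card (P k)) (hprime : ∀ k, PrimeGraph (G k))
    (hB : ∀ x : A, star x * x = 0 → x = 0)
    (u : (∀ k, P k) → (∀ k, P k) → A) (h : QIso (boxPi G) (boxPi G) u) (k l : J)
    (hk : Fintype.card (P k) ≠ 2) (hl : Fintype.card (P l) = 2)
    {a b w v : ∀ k, P k} (hab : DirAdj G k a b) (hwv : DirAdj G l w v) :
    u a w * u b v = 0 := by
  classical
  obtain ⟨E, e1, e2, e3, e4⟩ := central_dir G hG hP hprime hB u h k l
    (fun a b hab => good_dir G hG hB u h k (noK2_of_prime (G k) (hP k) (hprime k) hk) l hab)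
  -- a path with three vertices
  have h3 : 3 ≤ Fintype.card (P k) := by have := hP k; omega
  obtain ⟨q, p, r, hqp, hqr, hpr⟩ : ∃ q p r : P k, (G k).Adj q p ∧ (G k).Adj q r ∧ p ≠ r := by
    by_contra hno
    push Not at hno
    have : Nonempty (P k) := (hG k).nonempty
    obtain ⟨x⟩ := this
    have : Nontrivial (P k) := Fintype.one_lt_card_iff_nontrivial.1 (hP k)
    obtain ⟨y, hy⟩ := (hG k).preconnected.exists_adj_of_nontrivial x
    have hcl : ∀ z, z = x ∨ z = y := by
      intro z
      obtain ⟨W⟩ := (hG k).preconnected x z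
      have hw : ∀ (s t : P k) (W : (G k).Walk s t), (s = x ∨ s = y) → (t = x ∨ t = y) := by
        intro s t W
        induction W with
        | nil => exact id
        | cons hadj _ ih =>
          rintro (rfl | rfl)
          · exact ih (Or.inr (hno _ _ _ hadj hy))
          · exact ih (Or.inl (hno _ _ _ hadj hy.symm))
      exact hw x z W (Or.inl rfl)
    have : Fintype.card (P k) ≤ 2 := by
      calc Fintype.card (P k) = (Finset.univ : Finset (P k)).card := rfl
        _ ≤ ({x, y} : Finset (P k)).card := by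
            apply Finset.card_le_card
            intro z _
            rcases hcl z with h | h <;> simp [h]
        _ ≤ 2 := Finset.card_le_two
    omega
  -- the two neighbours
  have hE0 : E = 0 := by
    obtain ⟨o⟩ := (boxPi_connected G hG).nonempty
    set a0 := Function.update o k q with ha0
    set a1 := Function.update o k p with ha1
    set a2 := Function.update o k r with ha2
    have d1 : DirAdj G k a0 a1 := by
      refine ⟨by simp [ha0, ha1, hqp], fun j hj => ?_⟩
      rw [ha0, ha1, Function.update_of_ne hj, Function.update_of_ne hj]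
    have d2 : DirAdj G k a0 a2 := by
      refine ⟨by simp [ha0, ha2, hqr], fun j hj => ?_⟩
      rw [ha0, ha2, Function.update_of_ne hj, Function.update_of_ne hj]
    have hne : a1 ≠ a2 := by
      intro h'
      have := congrFun h' k
      simp only [ha1, ha2, Function.update_self] at this
      exact hpr this
    apply h.eq_zero_left a0
    intro w
    -- the unique neighbour of `w` in direction `l`
    obtain ⟨w', hw'⟩ := exists_nbr G hG hP l w
    have huniq : ∀ v, DirAdj G l w v → v = w' := by
      intro v hv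
      funext j
      by_cases hj : j = l
      · subst hj
        by_contra hne
        have h4 : ({w j, v j, w' j} : Finset (P j)).card ≤ 2 := by
          rw [← hl]; exact Finset.card_le_univ _
        have h5 : ({w j, v j, w' j} : Finset (P j)).card = 3 := by
          rw [Finset.card_eq_three]
          exact ⟨w j, v j, w' j, hv.1.ne, hw'.1.ne, hne, rfl⟩
        omega
      · rw [← hv.2 j hj, ← hw'.2 j hj]
    have key : ∀ b, DirAdj G k a0 b → u a0 w * E = u a0 w * u b w' * E := by
      intro b hb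
      calc u a0 w * E = ∑ v, u a0 w * u b v * E := by
            rw [← Finset.sum_mul, ← Finset.mul_sum, h.rowSum, mul_one]
        _ = u a0 w * u b w' * E := by
            rw [Finset.sum_eq_single w']
            · intro v _ hv
              rw [e4 a0 b w v hb, if_neg (fun h' => hv (huniq v h'))]
            · intro h'; exact absurd (Finset.mem_univ _) h'
    have k1 := key a1 d1
    have k2 := key a2 d2
    calc u a0 w * E = u a0 w * u a1 w' * E := k1
      _ = (u a0 w * E) * u a1 w' := by rw [mul_assoc, ← e3, ← mul_assoc]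
      _ = (u a0 w * u a2 w' * E) * u a1 w' := by rw [k2]
      _ = u a0 w * (u a2 w' * u a1 w') * E := by
          rw [mul_assoc _ E, e3]
          simp only [mul_assoc]
      _ = 0 := by rw [h.colOrth a2 a1 w' hne.symm, mul_zero, zero_mul]
  have := e4 a b w v hab
  rw [hE0, mul_zero, if_pos hwv] at this
  exact this.symm

end

end Pool.Agent.Helper43K9.QS
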