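import Pool.Agent.Helper43K9.QS.SysC
import Pool.Agent.H767R3.DS.W

set_option autoImplicit false
set_option linter.unusedSectionVars false
set_option linter.unusedVariables false

namespace Pool.Agent.Helper43K9.QS

open Pool.Agent.H741.QS Pool.Agent.H767R3.DS

section

variable {ι : Type} [Fintype ι] [DecidableEq ι] {P : ι → Type} [∀ i, Fintype (P i)]

/-- a copy -/
def cp (c : Bool) (w : ∀ k : ι × Bool, P k.1) : ∀ i, P i := fun i => w (i, c)

/-- a pair -/
def mk2 (f : Bool → ∀ i, P i) : ∀ k : ι × Bool, P k.1 := fun k => f k.2 k.1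

theorem cp_mk2 (c : Bool) (f : Bool → ∀ i, P i) : cp c (mk2 f) = f c := rfl

theorem R2_iff (X : SimpleGraph (∀ i, P i)) (a b : ∀ k : ι × Bool, P k.1) (c : Bool) :
    (R2 X).Adj a b ↔ X.Adj (cp c a) (cp c b) ∧ X.Adj (cp (!c) a) (cp (!c) b) := by
  cases c
  · exact Iff.rfl
  · exact and_comm

theorem cp_ph_same (i : ι) (c : Bool) (h : Fintype.card (P i) = 2)
    (w : ∀ k : ι × Bool, P k.1) :
    cp c (ph (P := fun k : ι × Bool => P k.1) ⟨(i, c), h⟩ w) = ph (P := P) ⟨i, h⟩ (cp c w) := by
  funext l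
  by_cases hl : l = i
  · subst hl
    rw [ph_self (P := P) ⟨l, h⟩ (cp c w)]
    exact ph_self (P := fun k : ι × Bool => P k.1) ⟨(l, c), h⟩ w
  · rw [ph_ne (P := P) ⟨i, h⟩ (cp c w) hl]
    exact ph_ne (P := fun k : ι × Bool => P k.1) ⟨(i, c), h⟩ w
      (fun h' => hl (congrArg Prod.fst h'))

theorem cp_ph_ne (i : ι) (c c' : Bool) (hcc : c' ≠ c) (h : Fintype.card (P i) = 2)
    (w : ∀ k : ι × Bool, P k.1) :
    cp c' (ph (P := fun k : ι × Bool => P k.1) ⟨(i, c), h⟩ w) = cp c' w := by
  funext l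
  exact ph_ne (P := fun k : ι × Bool => P k.1) ⟨(i, c), h⟩ w
      (fun h' => hcc (congrArg Prod.snd h'))

theorem ta_cp (i : ι) (c : Bool) (h : Fintype.card (P i) = 2)
    (w : ∀ k : ι × Bool, P k.1) :
    ta (P := fun k : ι × Bool => P k.1) ⟨(i, c), h⟩ w = ta (P := P) ⟨i, h⟩ (cp c w) := rfl

theorem ta_cases (j : T2 P) (x : ∀ i, P i) : ta j x = 1 ∨ ta j x = -1 := by
  unfold ta
  split_ifs
  · exact Or.inl rfl
  · exact Or.inr rfl

/-- two directions in the same copy -/
theorem same_copy (G : ∀ i, SimpleGraph (P i)) (hG : ∀ i, (G i).Connected)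
    (X : SimpleGraph (∀ i, P i)) (hNQ : NoQuantumSymmetry X) (j k : T2 P) (hjk : j ≠ k)
    (h1 : ∀ x y, X.Adj (ph j (ph k x)) (ph j (ph k y)) ↔ X.Adj x y)
    (h2 : ∀ x y, ta j x * ta k x = ta j y * ta k y → (X.Adj (ph j x) y ↔ X.Adj (ph k x) y)) :
    False := by
  classical
  have hs := sysC G hG
  obtain ⟨s, hs0⟩ : ∃ s : (∀ i, P i) → ℝ, ∀ x, s x = ta j x * ta k x := ⟨_, fun _ => rfl⟩
  have sv : ∀ x, s x = 1 ∨ s x = -1 := by
    intro x
    rw [hs0]
    rcases ta_cases j x with h | h <;> rcases ta_cases k x with h' | h' <;> rw [h, h'] <;> norm_num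
  have sj : ∀ x, s (ph j x) = - s x := by
    intro x
    rw [hs0, hs0, hs.tau_self, hs.tau_ne j k x hjk]
    ring
  have sk : ∀ x, s (ph k x) = - s x := by
    intro x
    rw [hs0, hs0, hs.tau_self, hs.tau_ne k j x hjk.symm]
    ring
  have sG : ∀ x, s (ph j (ph k x)) = s x := by
    intro x
    rw [sj, sk, neg_neg]
  have GG : ∀ x, ph j (ph k (ph j (ph k x))) = x := by
    intro x
    rw [hs.comm k j, hs.inv, hs.inv]
  have mixed : ∀ x y, s x = - s y → (X.Adj x y ↔ X.Adj (ph j (ph k x)) y) := by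
    intro x y hxy
    have h3 := h2 (ph j x) y (by rw [← hs0, ← hs0, sj, hxy, neg_neg])
    rw [hs.inv, ← hs.comm j k] at h3
    exact h3
  have mixed' : ∀ x y, s x = - s y → (X.Adj x y ↔ X.Adj x (ph j (ph k y))) := by
    intro x y hxy
    rw [X.adj_comm, mixed y x (by rw [hxy, neg_neg]), X.adj_comm]
  let g : (∀ i, P i) → (∀ i, P i) := fun x => if s x = 1 then ph j (ph k x) else x
  let h : (∀ i, P i) → (∀ i, P i) := fun x => if s x = 1 then x else ph j (ph k x)
  have hne : ∀ x : ∀ i, P i, ph j (ph k x) ≠ x := by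
    intro x h'
    have e1 := congrArg (ta j) h'
    rw [hs.tau_self, hs.tau_ne k j x hjk.symm] at e1
    have := hs.tau_ne_zero j x
    apply this
    linarith
  have hmix : ∀ x y, s x = 1 → s y ≠ 1 → s x = - s y := by
    intro x y hx hy
    rw [(sv y).resolve_left hy, hx, neg_neg]
  have hmix' : ∀ x y, s x ≠ 1 → s y = 1 → s x = - s y := by
    intro x y hx hy
    rw [(sv x).resolve_left hx, hy]
  obtain ⟨x0⟩ := hs.conn.nonempty
  obtain ⟨a, b, ha, hb⟩ : ∃ a b, s a = 1 ∧ s b ≠ 1 := by
    rcases sv x0 with h0 | h0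
    · refine ⟨x0, ph j x0, h0, ?_⟩
      rw [sj, h0]; norm_num
    · refine ⟨ph j x0, x0, ?_, ?_⟩
      · rw [sj, h0]; norm_num
      · rw [h0]; norm_num
  refine qsn_key X g h ?_ ?_ ?_ ?_ ?_ a b ?_ ?_ hNQ
  · intro x
    by_cases hx : s x = 1
    · simp only [g, if_pos hx, if_pos ((sG x).trans hx), GG]
    · simp only [g, if_neg hx]
  · intro x
    by_cases hx : s x = 1
    · simp only [h, if_pos hx]
    · have : ¬ s (ph j (ph k x)) = 1 := fun h' => hx ((sG x).symm.trans h')
      simp only [h, if_neg hx, if_neg this, GG]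
  · intro x y hxy
    by_cases hx : s x = 1 <;> by_cases hy : s y = 1
    · simp only [g, if_pos hx, if_pos hy]
      exact (h1 x y).2 hxy
    · simp only [g, if_pos hx, if_neg hy]
      exact (mixed x y (hmix x y hx hy)).1 hxy
    · simp only [g, if_neg hx, if_pos hy]
      exact (mixed' x y (hmix' x y hx hy)).1 hxy
    · simp only [g, if_neg hx, if_neg hy]
      exact hxy
  · intro x y hxy
    by_cases hx : s x = 1 <;> by_cases hy : s y = 1
    · simp only [h, if_pos hx, if_pos hy]
      exact hxy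
    · simp only [h, if_pos hx, if_neg hy]
      exact (mixed' x y (hmix x y hx hy)).1 hxy
    · simp only [h, if_neg hx, if_pos hy]
      exact (mixed x y (hmix' x y hx hy)).1 hxy
    · simp only [h, if_neg hx, if_neg hy]
      exact (h1 x y).2 hxy
  · intro x
    by_cases hx : s x = 1
    · right; simp only [h, if_pos hx]
    · left; simp only [g, if_neg hx]
  · simp only [g, if_pos ha]
    exact hne a
  · simp only [h, if_neg hb]
    exact hne b

/-- two directions in different copies -/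
theorem diff_copy (G : ∀ i, SimpleGraph (P i)) (hG : ∀ i, (G i).Connected)
    (X : SimpleGraph (∀ i, P i)) (hX : X.Connected) (hbip : ¬ X.Colorable 2) (htw : TwinFree X)
    (j k : T2 P)
    (h2 : ∀ x x' y y', ta j x * ta k y = ta j x' * ta k y' →
      ((X.Adj (ph j x) x' ∧ X.Adj y y') ↔ (X.Adj x x' ∧ X.Adj (ph k y) y'))) :
    False := by
  classical
  have hs := sysC G hG
  have step1 : ∀ x x', X.Adj x x' → ¬ X.Adj (ph j x) x' := by
    intro x x' e1 e2
    have h3 : ∀ y y', ta j x * ta k y = ta j x' * ta k y' → (X.Adj y y' ↔ X.Adj (ph k y) y') := by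
      intro y y' hyy
      have := h2 x x' y y' hyy
      constructor
      · intro h; exact (this.1 ⟨e2, h⟩).2
      · intro h; exact (this.2 ⟨e1, h⟩).2
    have h4 : ∀ y y', X.Adj y y' ↔ X.Adj (ph k y) y' := by
      intro y y'
      by_cases hc : ta j x * ta k y = ta j x' * ta k y'
      · exact h3 y y' hc
      · have := h3 (ph k y) y' (by
          rw [hs.tau_self]
          rcases ta_cases j x with q1 | q1 <;> rcases ta_cases k y with q2 | q2 <;>
            rcases ta_cases j x' with q3 | q3 <;> rcases ta_cases k y' with q4 | q4 <;>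
            rw [q1, q2, q3, q4] at hc <;> rw [q1, q2, q3, q4] <;>
            first | (exfalso; apply hc; norm_num; done) | (norm_num; done))
        rw [hs.inv] at this
        exact this.symm
    have h5 := htw x (ph k x) (fun z => h4 x z)
    have e3 := hs.tau_self k x
    rw [← h5] at e3
    apply hs.tau_ne_zero k x
    linarith
  by_cases hed : ∃ x x', X.Adj x x' ∧ ta j x = ta j x'
  · obtain ⟨x, x', e1, e2⟩ := hed
    have h3 : ∀ y y', ta k y = ta k y' → ¬ X.Adj (ph k y) y' := by
      intro y y' hyy h4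
      exact step1 x x' e1 ((h2 x x' y y' (by rw [e2, hyy])).2 ⟨e1, h4⟩).1
    have h4 : ∀ y y', X.Adj y y' → ta k y = ta k y' := by
      intro y y' hyy
      by_contra hne
      apply h3 (ph k y) y' ?_ (by rw [hs.inv]; exact hyy)
      rw [hs.tau_self]
      rcases ta_cases k y with q1 | q1 <;> rcases ta_cases k y' with q2 | q2 <;>
        rw [q1, q2] at hne <;> rw [q1, q2] <;>
        first | (exfalso; apply hne; norm_num; done) | (norm_num; done)
    have h5 : ∀ (y y' : ∀ i, P i) (p : X.Walk y y'), ta k y = ta k y' := by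
      intro y y' p
      induction p with
      | nil => rfl
      | cons hadj _ ih => exact (h4 _ _ hadj).trans ih
    obtain ⟨p⟩ := hX.preconnected x (ph k x)
    have e3 := h5 _ _ p
    rw [hs.tau_self] at e3
    apply hs.tau_ne_zero k x
    linarith
  · apply hbip
    have C : X.Coloring Bool := SimpleGraph.Coloring.mk (fun x => eqv j (x j.1)) (by
      intro x y hxy h'
      apply hed
      refine ⟨x, y, hxy, ?_⟩
      unfold ta
      rw [h'])
    have := C.colorable
    simpa using this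

variable {A : Type} [Ring A] [StarRing A] [Algebra ℝ A] [StarModule ℝ A]

/-- all mixed products of coefficients vanish -/
theorem mixed_zero (G : ∀ i, SimpleGraph (P i)) (hG : ∀ i, (G i).Connected)
    (X : SimpleGraph (∀ i, P i)) (hX : X.Connected) (hbip : ¬ X.Colorable 2) (htw : TwinFree X)
    (hNQ : NoQuantumSymmetry X) (hB : ∀ x : A, star x * x = 0 → x = 0)
    (u : (∀ k : ι × Bool, P k.1) → (∀ k : ι × Bool, P k.1) → A)
    {b : T2 (fun k : ι × Bool => P k.1) → T2 (fun k : ι × Bool => P k.1) → A}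
    (hc : Coef (boxPi (fun k : ι × Bool => G k.1)) ta ph (nk2 (fun k : ι × Bool => G k.1)) u b)
    (hH : QIso (R2 X) (R2 X) u) (i j k : T2 (fun k : ι × Bool => P k.1)) (hjk : j ≠ k) :
    b i j * b i k = 0 := by
  by_contra hne
  obtain ⟨x0, y0, hxy0⟩ : ∃ x0 y0, X.Adj x0 y0 := by
    by_contra hno
    push Not at hno
    apply hbip
    exact ⟨SimpleGraph.Coloring.mk (fun _ => 0) (fun {x y} h => absurd h (hno x y))⟩
  have H1 := hc.inv_pair hH i j k hne
  have H2 := hc.sym_of_ne hH hB i j k hjk hne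
  obtain ⟨⟨i1, c⟩, hj⟩ := j
  obtain ⟨⟨i2, c'⟩, hk⟩ := k
  have hj' : Fintype.card (P i1) = 2 := hj
  have hk' : Fintype.card (P i2) = 2 := hk
  by_cases hcc : c' = c
  · subst hcc
    have hij : (⟨i1, hj'⟩ : T2 P) ≠ ⟨i2, hk'⟩ := by
      intro h
      apply hjk
      have : i1 = i2 := congrArg Subtype.val h
      subst this
      rfl
    have hnc : (!c') ≠ c' := by cases c' <;> simp
    refine same_copy G hG X hNQ ⟨i1, hj'⟩ ⟨i2, hk'⟩ hij ?_ ?_
    · intro x y
      have := H1 (mk2 (fun d => if d = c' then x else x0)) (mk2 (fun d => if d = c' then y else y0))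
      rw [R2_iff X _ _ c', R2_iff X _ _ c', cp_ph_same, cp_ph_same, cp_ph_same, cp_ph_same,
        cp_ph_ne _ _ _ hnc, cp_ph_ne _ _ _ hnc, cp_ph_ne _ _ _ hnc, cp_ph_ne _ _ _ hnc,
        cp_mk2, cp_mk2, cp_mk2, cp_mk2] at this
      simp only [if_true, if_neg hnc, hxy0, and_true] at this
      exact this
    · intro x y hxy
      have := H2 (mk2 (fun d => if d = c' then x else x0)) (mk2 (fun d => if d = c' then y else y0))
        (by
          rw [ta_cp, ta_cp, ta_cp, ta_cp, cp_mk2, cp_mk2]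
          simp only [if_true]
          exact hxy)
      rw [R2_iff X _ _ c', R2_iff X _ _ c', cp_ph_same, cp_ph_same,
        cp_ph_ne _ _ _ hnc, cp_ph_ne _ _ _ hnc, cp_mk2, cp_mk2, cp_mk2, cp_mk2] at this
      simp only [if_true, if_neg hnc, hxy0, and_true] at this
      exact this
  · have hcc' : c' = !c := by revert hcc; cases c <;> cases c' <;> simp
    subst hcc'
    have hnc : (!c) ≠ c := by cases c <;> simp
    refine diff_copy G hG X hX hbip htw ⟨i1, hj'⟩ ⟨i2, hk'⟩ ?_
    intro x x' y y' hxy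
    have := H2 (mk2 (fun d => if d = c then x else y)) (mk2 (fun d => if d = c then x' else y'))
      (by
        rw [ta_cp, ta_cp, ta_cp, ta_cp, cp_mk2, cp_mk2, cp_mk2, cp_mk2]
        simp only [if_true, if_neg hnc]
        exact hxy)
    rw [R2_iff X _ _ c, R2_iff X _ _ c, cp_ph_same, cp_ph_ne _ _ _ hnc, cp_ph_same,
      cp_ph_ne _ _ _ hnc.symm, cp_mk2, cp_mk2, cp_mk2, cp_mk2] at this
    simp only [if_true, if_neg hnc] at this
    exact this

/-- the central projections for the direct square -/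
theorem exists_central_sq (G : ∀ i, SimpleGraph (P i)) (hG : ∀ i, (G i).Connected)
    (hP : ∀ i, 2 ≤ Fintype.card (P i)) (hprime : ∀ i, PrimeGraph (G i))
    (X : SimpleGraph (∀ i, P i)) (hX : X.Connected) (hbip : ¬ X.Colorable 2) (htw : TwinFree X)
    (hNQ : NoQuantumSymmetry X) (hB : ∀ x : A, star x * x = 0 → x = 0)
    (u : (∀ k : ι × Bool, P k.1) → (∀ k : ι × Bool, P k.1) → A)
    (h : QIso (boxPi (fun k : ι × Bool => G k.1)) (boxPi (fun k : ι × Bool => G k.1)) u)
    (hH : QIso (R2 X) (R2 X) u) :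
    ∃ E : (ι × Bool) → (ι × Bool) → A, (∀ k l, star (E k l) = E k l) ∧
      (∀ k l, E k l * E k l = E k l) ∧
      (∀ k l k' l', E k l * E k' l' = E k' l' * E k l) ∧ (∀ k, ∑ l, E k l = 1) ∧
      (∀ k l a w, E k l * u a w = u a w * E k l) ∧
      (∀ k l a b w v, DirAdj (fun k : ι × Bool => G k.1) k a b →
        ¬ DirAdj (fun k : ι × Bool => G k.1) l w v → u a w * u b v * E k l = 0) := by
  obtain ⟨b, hc⟩ := exists_coef (fun k : ι × Bool => G k.1) (fun k => hG k.1) (fun k => hP k.1)
    (fun k => hprime k.1) hB u h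
  exact exists_central_of_good (fun k : ι × Bool => G k.1) (fun k => hG k.1) (fun k => hP k.1)
    (fun k => hprime k.1) hB u h (fun k l a c hac =>
      good_all (fun k : ι × Bool => G k.1) (fun k => hG k.1) (fun k => hP k.1)
        (fun k => hprime k.1) hB u h hc
        (fun i j k hjk => mixed_zero G hG X hX hbip htw hNQ hB u hc hH i j k hjk) k l a c hac)

end

end Pool.Agent.Helper43K9.QS
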