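import Pool.Agent.Helper43K9.QS.Conc

set_option autoImplicit false
set_option linter.unusedSectionVars false
set_option linter.unusedVariables false

namespace Pool.Agent.Helper43K9.QS

open Pool.Agent.H741.QS

section

variable {J : Type} [Fintype J] [DecidableEq J] {P : J → Type} [∀ k, Fintype (P k)]

/-- the two-point directions -/
abbrev T2 (P : J → Type) [∀ k, Fintype (P k)] : Type := {k : J // Fintype.card (P k) = 2}

/-- a two-point coordinate as a Boolean -/
noncomputable def eqv (k : T2 P) : P k.1 ≃ Bool :=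
  Fintype.equivOfCardEq (by rw [k.2, Fintype.card_bool])

/-- the sign -/
noncomputable def ta (k : T2 P) (x : ∀ k, P k) : ℝ := if eqv k (x k.1) = true then 1 else -1

/-- the flip -/
noncomputable def ph (k : T2 P) (x : ∀ k, P k) : ∀ k, P k :=
  Function.update x k.1 ((eqv k).symm (!(eqv k (x k.1))))

/-- the other edges -/
def nk2 (G : ∀ k, SimpleGraph (P k)) (x y : ∀ k, P k) : Prop :=
  ∃ k, Fintype.card (P k) ≠ 2 ∧ DirAdj G k x y

theorem ph_self (k : T2 P) (x : ∀ k, P k) : ph k x k.1 = (eqv k).symm (!(eqv k (x k.1))) := by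
  simp [ph]

theorem ph_ne (k : T2 P) (x : ∀ k, P k) {j : J} (hj : j ≠ k.1) : ph k x j = x j := by
  simp [ph, Function.update_of_ne hj]

theorem two_adj {k : J} (hk : Fintype.card (P k) = 2) (Gk : SimpleGraph (P k))
    (hG : Gk.Connected) (p q : P k) (hpq : p ≠ q) : Gk.Adj p q := by
  have : Nontrivial (P k) := Fintype.one_lt_card_iff_nontrivial.1 (by omega)
  obtain ⟨y, hy⟩ := hG.preconnected.exists_adj_of_nontrivial p
  by_cases hyq : y = q
  · subst hyq; exact hy
  · exfalso
    classical
    have h4 : ({p, q, y} : Finset (P k)).card ≤ 2 := by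
      rw [← hk]; exact Finset.card_le_univ _
    have h5 : ({p, q, y} : Finset (P k)).card = 3 := by
      rw [Finset.card_eq_three]
      exact ⟨p, q, y, hpq, hy.ne, Ne.symm hyq, rfl⟩
    omega

theorem ph_ne_self (k : T2 P) (x : ∀ k, P k) : x k.1 ≠ ph k x k.1 := by
  rw [ph_self]
  intro h
  have := congrArg (eqv k) h
  rw [Equiv.apply_symm_apply] at this
  cases h2 : eqv k (x k.1) <;> rw [h2] at this <;> simp at this

theorem dir_ph (G : ∀ k, SimpleGraph (P k)) (hG : ∀ k, (G k).Connected) (k : T2 P)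
    (x : ∀ k, P k) : DirAdj G k.1 x (ph k x) :=
  ⟨two_adj k.2 (G k.1) (hG k.1) _ _ (ph_ne_self k x), fun j hj => (ph_ne k x hj).symm⟩

theorem ph_of_dir (G : ∀ k, SimpleGraph (P k)) (k : T2 P) {x y : ∀ k, P k}
    (h : DirAdj G k.1 x y) : y = ph k x := by
  funext j
  by_cases hj : j = k.1
  · subst hj
    rw [ph_self]
    apply (eqv k).injective
    rw [Equiv.apply_symm_apply]
    have h1 : eqv k (x k.1) ≠ eqv k (y k.1) := fun h' => h.1.ne ((eqv k).injective h')
    revert h1
    cases eqv k (x k.1) <;> cases eqv k (y k.1) <;> simp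
  · rw [ph_ne k x hj]
    exact (h.2 j hj).symm

/-- the concrete system -/
theorem sysC (G : ∀ k, SimpleGraph (P k)) (hG : ∀ k, (G k).Connected) :
    Sys (boxPi G) (T2 P) ta ph (nk2 G) where
  tau j x := by
    unfold ta
    split_ifs <;> norm_num
  inv j x := by
    funext i
    by_cases hi : i = j.1
    · subst hi
      rw [ph_self, ph_self, Equiv.apply_symm_apply, Bool.not_not, Equiv.symm_apply_apply]
    · rw [ph_ne j _ hi, ph_ne j _ hi]
  comm i j x := by
    by_cases hij : i = j
    · rw [hij]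
    · have hij' : i.1 ≠ j.1 := fun h => hij (Subtype.ext h)
      funext l
      by_cases hl : l = i.1
      · subst hl
        rw [ph_self, ph_ne j x hij', ph_ne j _ hij', ph_self]
      · by_cases hl' : l = j.1
        · subst hl'
          rw [ph_ne i _ hl, ph_self, ph_self, ph_ne i _ hl]
        · rw [ph_ne i _ hl, ph_ne j _ hl', ph_ne j _ hl', ph_ne i _ hl]
  tau_self j x := by
    unfold ta
    rw [ph_self, Equiv.apply_symm_apply]
    cases eqv j (x j.1) <;> simp
  tau_ne i j x hij := by
    have hij' : j.1 ≠ i.1 := fun h => hij (Subtype.ext h.symm)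
    unfold ta
    rw [ph_ne i x hij']
  adj x y := by
    constructor
    · rintro ⟨k, hk1, hk2⟩
      by_cases hc : Fintype.card (P k) = 2
      · exact Or.inr ⟨⟨k, hc⟩, ph_of_dir G ⟨k, hc⟩ ⟨hk1, hk2⟩⟩
      · exact Or.inl ⟨k, hc, hk1, hk2⟩
    · rintro (⟨k, hc, hk1, hk2⟩ | ⟨j, rfl⟩)
      · exact ⟨k, hk1, hk2⟩
      · exact ⟨j.1, (dir_ph G hG j x).1, (dir_ph G hG j x).2⟩
  nk_tau x y j := by
    rintro ⟨k, hc, hk1, hk2⟩
    have : j.1 ≠ k := fun h => hc (by rw [← h]; exact j.2)
    unfold ta
    rw [hk2 j.1 this]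
  nk_flip x y j := by
    rintro ⟨k, hc, hk1, hk2⟩
    have hjk : k ≠ j.1 := fun h => hc (by rw [h]; exact j.2)
    refine ⟨k, hc, ?_, ?_⟩
    · rw [ph_ne j x hjk, ph_ne j y hjk]; exact hk1
    · intro i hi
      by_cases hij : i = j.1
      · subst hij
        rw [ph_self, ph_self, hk2 _ hi]
      · rw [ph_ne j x hij, ph_ne j y hij, hk2 _ hi]
  diag j t v x y hd := by
    classical
    have hs := split_boxPi G hG j.1
    by_cases hne : rest P j.1 t = rest P j.1 v
    · exfalso
      have h1 : t j.1 ≠ v j.1 := fun h => hd.1 (hs.inj _ _ h hne)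
      exact hd.2.1 ⟨j.1, two_adj j.2 (G j.1) (hG j.1) _ _ h1,
        fun i hi => congrFun hne ⟨i, hi⟩⟩
    · refine hs.diag_sum (F := ta j)
        (K := fun w => if rest P j.1 w = rest P j.1 t then 1 else 0) ?_ ?_ hd ?_
      · intro w v hwv
        unfold ta
        have : w j.1 = v j.1 := hwv
        rw [this]
      · intro w v hwv
        simp only [hwv]
      · simp only [if_true]
        rw [if_neg (fun h => hne h.symm)]
        norm_num
  diag2 i j x hij := by
    have hij' : i.1 ≠ j.1 := fun h => hij (Subtype.ext h)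
    have h := pl_move G i.1 x (ph j x) j.1 hij'.symm (dir_ph G hG j x).1 (dir_ph G hG j x).2
      (x i.1) (ph i x i.1) (dir_ph G hG i x).1
    have e1 : Function.update x i.1 (ph i x i.1) = ph i x := by
      funext l
      by_cases hl : l = i.1
      · subst hl; simp
      · rw [Function.update_of_ne hl, ph_ne i x hl]
    have e2 : Function.update (ph j x) i.1 (x i.1) = ph j x := by
      funext l
      by_cases hl : l = i.1
      · subst hl; rw [Function.update_self, ph_ne j x hij']
      · rw [Function.update_of_ne hl]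
    have e3 : Function.update x i.1 (x i.1) = x := Function.update_eq_self _ _
    have e4 : Function.update (ph j x) i.1 (ph i x i.1) = ph i (ph j x) := by
      funext l
      by_cases hl : l = i.1
      · subst hl; rw [Function.update_self, ph_self, ph_self, ph_ne j x hij']
      · rw [Function.update_of_ne hl, ph_ne i _ hl]
    rw [e1, e2, e3, e4] at h
    exact h
  conn := boxPi_connected G hG

variable {A : Type} [Ring A] [StarRing A] [Algebra ℝ A] [StarModule ℝ A]

theorem s1C (G : ∀ k, SimpleGraph (P k)) (hG : ∀ k, (G k).Connected)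
    (hP : ∀ k, 2 ≤ Fintype.card (P k)) (hprime : ∀ k, PrimeGraph (G k))
    (hB : ∀ x : A, star x * x = 0 → x = 0)
    (u : (∀ k, P k) → (∀ k, P k) → A) (h : QIso (boxPi G) (boxPi G) u) :
    S1 (T := T2 P) ph (nk2 G) u where
  a a b w l hab := by
    obtain ⟨k, hc, hk⟩ := hab
    exact s1_core G hG hP hprime hB u h k l.1 hc l.2 hk (dir_ph G hG l w)
  b a w v i hwv := by
    obtain ⟨k, hc, hk⟩ := hwv
    exact s1_core G hG hP hprime hB _ h.transpose k i.1 hc i.2 hk (dir_ph G hG i a)

/-- the coefficients -/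
theorem exists_coef (G : ∀ k, SimpleGraph (P k)) (hG : ∀ k, (G k).Connected)
    (hP : ∀ k, 2 ≤ Fintype.card (P k)) (hprime : ∀ k, PrimeGraph (G k))
    (hB : ∀ x : A, star x * x = 0 → x = 0)
    (u : (∀ k, P k) → (∀ k, P k) → A) (h : QIso (boxPi G) (boxPi G) u) :
    ∃ b : T2 P → T2 P → A, Coef (boxPi G) ta ph (nk2 G) u b := by
  obtain ⟨b, h1, h2⟩ := exists_b h (sysC G hG) (s1C G hG hP hprime hB u h)
  exact ⟨b, h, sysC G hG, s1C G hG hP hprime hB u h, h1, h2⟩

/-- if all mixed products of coefficients vanish, all edges are good -/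
theorem good_all (G : ∀ k, SimpleGraph (P k)) (hG : ∀ k, (G k).Connected)
    (hP : ∀ k, 2 ≤ Fintype.card (P k)) (hprime : ∀ k, PrimeGraph (G k))
    (hB : ∀ x : A, star x * x = 0 → x = 0)
    (u : (∀ k, P k) → (∀ k, P k) → A) (h : QIso (boxPi G) (boxPi G) u)
    {b : T2 P → T2 P → A} (hc : Coef (boxPi G) ta ph (nk2 G) u b)
    (hz : ∀ i j k, j ≠ k → b i j * b i k = 0) (k l : J) (a c : ∀ k, P k) (hac : DirAdj G k a c) :
    Good (boxPi G) (fun w : ∀ k, P k => w l) (rest P l) u a c := by
  by_cases hk : Fintype.card (P k) = 2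
  · have hcc := ph_of_dir G ⟨k, hk⟩ hac
    obtain ⟨i, hi⟩ : ∃ i : T2 P, i = ⟨k, hk⟩ := ⟨_, rfl⟩
    rw [← hi] at hcc
    subst hcc
    intro w v w' h1 h2 h3 h4
    rcases (hc.hs.adj w v).1 h1 with hn | ⟨j, hj⟩
    · rw [hc.h1.b a w v i hn, zero_mul]
    rcases (hc.hs.adj w' v).1 h3.symm with hn | ⟨j', hj'⟩
    · rw [mul_assoc, h.star_mul_eq_zero (hc.h1.b a w' v i hn), mul_zero]
    -- the two directions differ
    have hjl : j.1 = l := by
      by_contra hne
      have e1 : w j.1 = v j.1 := congrFun h2 ⟨j.1, hne⟩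
      rw [hj] at e1
      exact ph_ne_self j w e1
    have hjl' : j'.1 ≠ l := by
      intro he
      have e1 : v l = w' l := h4
      rw [← he, hj'] at e1
      exact ph_ne_self j' w' e1.symm
    have hjj : j ≠ j' := fun h' => hjl' (by rw [← h']; exact hjl)
    have e1 : u a w * u (ph i a) v = (ta i a * ta j w) • (u a w * b i j) := by
      rw [hc.e3, smul_smul, hj]
      have t1 := hc.hs.tau i a
      have t2 := hc.hs.tau j w
      have : ta i a * ta j w * (ta i a * ta j w) = 1 := by
        calc ta i a * ta j w * (ta i a * ta j w) = (ta i a * ta i a) * (ta j w * ta j w) := by ring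
          _ = 1 := by rw [t1, t2]; ring
      rw [this, one_smul]
    have e2 : u (ph i a) v * u a w' = (ta i a * ta j' w') • (b i j' * u a w') := by
      rw [hc.e1, smul_smul, hj']
      have t1 := hc.hs.tau i a
      have t2 := hc.hs.tau j' w'
      have : ta i a * ta j' w' * (ta i a * ta j' w') = 1 := by
        calc ta i a * ta j' w' * (ta i a * ta j' w') =
            (ta i a * ta i a) * (ta j' w' * ta j' w') := by ring
          _ = 1 := by rw [t1, t2]; ring
      rw [this, one_smul]
    calc u a w * u (ph i a) v * u a w' = u a w * (u (ph i a) v * u (ph i a) v) * u a w' := by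
          rw [h.idem]
      _ = (u a w * u (ph i a) v) * (u (ph i a) v * u a w') := by simp only [mul_assoc]
      _ = 0 := by
          rw [e1, e2, smul_mul_assoc, mul_smul_comm]
          have : u a w * b i j * (b i j' * u a w') = u a w * (b i j * b i j') * u a w' := by
            noncomm_ring
          rw [this, hz i j j' hjj, mul_zero, zero_mul, smul_zero, smul_zero]
  · exact good_dir G hG hB u h k (noK2_of_prime (G k) (hP k) (hprime k) hk) l hac

end

end Pool.Agent.Helper43K9.QS
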